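import Pool.Agent.N20.EW.Stm2
import Pool.Agent.N20.DI.Stm
import Pool.Agent.N457.AEMM
import Pool.Agent.N691.AECV
import Pool.Agent.Y286.NV.Fin
import Pool.Agent.Y63.AWC.Norm

/-!
# Project EW, part D1: from a defect zero character to the pair `(Q, θ)`
-/

set_option autoImplicit false
set_option linter.unusedSectionVars false

open scoped Classical BigOperators

noncomputable section

namespace Pool.Agent.N878.EW

open Pool.Agent.Y63.NV
open Pool.Agent.Y63.KR
open Pool.Agent.Y63.AWC (IsIrreducibleCharacter)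
open Pool.Agent.Y405.NV (ofF coeff_ofF class_iff coeff_mul_eq toRH toRH_apply)

/-! ### extension of homomorphisms -/

theorem lift_hom {F Z A : Type} [Field F] [IsAlgClosed F] [CommRing Z] [CommRing A] [Algebra F A]
    [Module.Finite F A] (ρ : Z →+* A) (s : F →+* Z) (hs : ρ.comp s = algebraMap F A)
    (β : Z →+* F) (hβ : ∀ c, β (s c) = c) (hker : ∀ z, ρ z = 0 → β z = 0) :
    ∃ γ : A →+* F, (∀ z, γ (ρ z) = β z) ∧ ∀ c, γ (algebraMap F A c) = c := by
  let _ := ρ.toAlgebra
  have hint : (algebraMap Z A).IsIntegral := by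
    have h1 : (algebraMap F A).IsIntegral :=
      fun x => Algebra.IsIntegral.isIntegral (R := F) x
    rw [← hs] at h1
    exact RingHom.IsIntegral.tower_top s ρ h1
  have : Algebra.IsIntegral Z A := ⟨hint⟩
  have hsur : Function.Surjective β := fun c => ⟨s c, hβ c⟩
  have hmax : (RingHom.ker β).IsMaximal := RingHom.ker_isMaximal_of_surjective β hsur
  obtain ⟨M, hM, hMc⟩ := Ideal.exists_ideal_over_maximal_of_isIntegral (S := A) (RingHom.ker β)
    (fun z hz => hker z hz)
  let _ : Field (A ⧸ M) := Ideal.Quotient.field M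
  have hbij : Function.Bijective (algebraMap F (A ⧸ M)) :=
    IsAlgClosed.algebraMap_bijective_of_isIntegral
  let e : F ≃+* (A ⧸ M) := RingEquiv.ofBijective (algebraMap F (A ⧸ M)) hbij
  have he : ∀ c, e.symm (Ideal.Quotient.mk M (algebraMap F A c)) = c := by
    intro c
    rw [RingEquiv.symm_apply_eq]
    rfl
  refine ⟨(e.symm : (A ⧸ M) →+* F).comp (Ideal.Quotient.mk M), ?_, he⟩
  intro z
  have h1 : z - s (β z) ∈ RingHom.ker β := by
    rw [RingHom.mem_ker, map_sub, hβ, sub_self]
  rw [← hMc, Ideal.mem_comap, map_sub] at h1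
  have h2 : Ideal.Quotient.mk M (ρ z) = Ideal.Quotient.mk M (ρ (s (β z))) :=
    Ideal.Quotient.eq.2 h1
  have h3 : ρ (s (β z)) = algebraMap F A (β z) := by rw [← hs]; rfl
  show e.symm (Ideal.Quotient.mk M (ρ z)) = β z
  rw [h2, h3, he]

/-! ### the Brauer homomorphism -/

section brauer

variable {p : ℕ} [Fact p.Prime] {F : Type} [Field F] [CharP F p] {S C : Type} [Group S] [Group C]
  [Finite S] [Finite C]

theorem conv_res (Q R : Subgroup S) (hQ : IsPGroup p Q) (t : C →* S) (ht : Function.Injective t)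
    (htr : ∀ x : S, x ∈ t.range ↔ x ∈ R ∧ x ∈ Subgroup.centralizer (Q : Set S)) {f g : S → F}
    (hf : IsClassFun f) (hg : IsClassFun g) (hf0 : ∀ x, x ∉ R → f x = 0) :
    (fun c : C => conv f g (t c)) = conv (fun c : C => f (t c)) (fun c : C => g (t c)) := by
  have := Fintype.ofFinite S
  have := Fintype.ofFinite C
  funext c
  have hc : t c ∈ Subgroup.centralizer (Q : Set S) := ((htr _).1 ⟨c, rfl⟩).2
  unfold conv
  rw [finsum_eq_sum_of_fintype, finsum_eq_sum_of_fintype,
    sum_cut (p := p) Q hQ (fun y => f y * g (y⁻¹ * t c))]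
  · symm
    refine Fintype.sum_of_injective t ht _ _ ?_ ?_
    · intro y hy
      split_ifs with h
      · have : y ∉ R := fun hR => hy ((htr y).2 ⟨hR, h⟩)
        rw [hf0 y this, zero_mul]
      · rfl
    · intro d
      have hd : t d ∈ Subgroup.centralizer (Q : Set S) := ((htr _).1 ⟨d, rfl⟩).2
      rw [if_pos hd]
      show f (t d) * g (t (d⁻¹ * c)) = _
      rw [map_mul, map_inv]
  · intro r hr y
    have h2 : f (r * y * r⁻¹) = f y := hf r y
    have h3 : (r * y * r⁻¹)⁻¹ * t c = r * (y⁻¹ * t c) * r⁻¹ := by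
      have h4 := Subgroup.mem_centralizer_iff.1 hc r hr
      calc (r * y * r⁻¹)⁻¹ * t c = r * y⁻¹ * r⁻¹ * (t c * r) * r⁻¹ := by group
        _ = r * y⁻¹ * r⁻¹ * (r * t c) * r⁻¹ := by rw [h4]
        _ = _ := by group
    have h5 : g (r * (y⁻¹ * t c) * r⁻¹) = g (y⁻¹ * t c) := hg r (y⁻¹ * t c)
    show f (r * y * r⁻¹) * g ((r * y * r⁻¹)⁻¹ * t c) = f y * g (y⁻¹ * t c)
    rw [h2, h3, h5]

end brauer

section ext

variable {F : Type} [Field F] {S C : Type} [Group S] [Group C] [Finite S] [Finite C]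

theorem mem_alg {z : MonoidAlgebra F C} :
    z ∈ Subalgebra.center F (MonoidAlgebra F C) ↔ IsClassFun (fun x => z.coeff x) := by
  rw [← class_iff, Subring.mem_center_iff, Subalgebra.mem_center_iff]

/-- the class functions supported on `R` -/
def ZS (F : Type) [Field F] {S : Type} [Group S] [Finite S] (R : Subgroup S) :
    Subring (Subring.center (MonoidAlgebra F S)) where
  carrier := {w | ∀ x, x ∉ R → w.1.coeff x = 0}
  zero_mem' := fun _ _ => rfl
  one_mem' := by
    intro x hx
    have hx1 : x ≠ 1 := fun h => hx (h ▸ R.one_mem)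
    show (1 : MonoidAlgebra F S).coeff x = 0
    rw [MonoidAlgebra.one_def, MonoidAlgebra.coeff_single, Finsupp.single_apply,
      if_neg (fun h => hx1 h.symm)]
  add_mem' := by
    intro a b ha hb x hx
    show (a.1 + b.1).coeff x = 0
    have h1 : (a.1 + b.1).coeff x = a.1.coeff x + b.1.coeff x := rfl
    rw [h1, ha x hx, hb x hx, add_zero]
  neg_mem' := by
    intro a ha x hx
    have h1 : (-a.1).coeff x = -(a.1.coeff x) := rfl
    show (-a.1).coeff x = 0
    rw [h1, ha x hx, neg_zero]
  mul_mem' := by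
    intro a b ha hb x hx
    have := Fintype.ofFinite S
    have h1 : (a.1 * b.1).coeff x = conv (fun x => a.1.coeff x) (fun x => b.1.coeff x) x :=
      congrFun (coeff_mul_eq a.1 b.1) x
    show (a.1 * b.1).coeff x = 0
    rw [h1]
    unfold conv
    rw [finsum_eq_sum_of_fintype]
    refine Finset.sum_eq_zero fun y _ => ?_
    by_cases hy : y ∈ R
    · have : y⁻¹ * x ∉ R := fun h => hx (by
        have := R.mul_mem hy h
        rwa [mul_inv_cancel_left] at this)
      show a.1.coeff y * b.1.coeff (y⁻¹ * x) = 0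
      rw [hb _ this, mul_zero]
    · show a.1.coeff y * b.1.coeff (y⁻¹ * x) = 0
      rw [ha _ hy, zero_mul]

theorem coeff_algebraMap (c : F) (x : S) :
    (algebraMap F (MonoidAlgebra F S) c).coeff x = if x = 1 then c else 0 := by
  rw [Algebra.algebraMap_eq_smul_one]
  have h1 : (c • (1 : MonoidAlgebra F S)).coeff x = c * (1 : MonoidAlgebra F S).coeff x := rfl
  rw [h1, MonoidAlgebra.one_def, MonoidAlgebra.coeff_single, Finsupp.single_apply]
  by_cases hx : x = 1
  · rw [if_pos hx, if_pos hx.symm, mul_one]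
  · rw [if_neg hx, if_neg (fun h => hx h.symm), mul_zero]

/-- the scalars -/
def sc (R : Subgroup S) : F →+* ZS F R :=
  ((algebraMap F (MonoidAlgebra F S)).codRestrict (Subring.center (MonoidAlgebra F S))
    (fun c => Subring.mem_center_iff.2 fun g => (Algebra.commutes c g).symm)).codRestrict (ZS F R)
    (fun c x hx => by
      have hx1 : x ≠ 1 := fun h => hx (h ▸ R.one_mem)
      show (algebraMap F (MonoidAlgebra F S) c).coeff x = 0
      rw [coeff_algebraMap, if_neg hx1])

theorem coeff_sc (R : Subgroup S) (c : F) (x : S) :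
    (sc R c).1.1.coeff x = if x = 1 then c else 0 := coeff_algebraMap c x

/-- the Brauer homomorphism -/
def br {p : ℕ} [Fact p.Prime] [CharP F p] (Q R : Subgroup S) (hQ : IsPGroup p Q) (t : C →* S)
    (ht : Function.Injective t)
    (htr : ∀ x : S, x ∈ t.range ↔ x ∈ R ∧ x ∈ Subgroup.centralizer (Q : Set S)) :
    ZS F R →+* Subalgebra.center F (MonoidAlgebra F C) where
  toFun w := ⟨ofF (fun c => w.1.1.coeff (t c)), mem_alg.2 (by
    have h := (class_iff w.1.1).1 w.1.2
    intro g x
    show w.1.1.coeff (t (g * x * g⁻¹)) = w.1.1.coeff (t x)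
    rw [show t (g * x * g⁻¹) = t g * t x * (t g)⁻¹ by rw [map_mul, map_mul, map_inv]]
    exact h (t g) (t x))⟩
  map_one' := by
    apply Subtype.ext
    ext x
    show (1 : MonoidAlgebra F S).coeff (t x) = (1 : MonoidAlgebra F C).coeff x
    rw [MonoidAlgebra.one_def, MonoidAlgebra.one_def, MonoidAlgebra.coeff_single,
      MonoidAlgebra.coeff_single, Finsupp.single_apply, Finsupp.single_apply]
    by_cases hx : (1 : C) = x
    · rw [if_pos hx, if_pos (by rw [← hx, map_one])]
    · rw [if_neg hx, if_neg (fun h => hx (ht (by rw [map_one]; exact h)))]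
  map_zero' := by
    apply Subtype.ext
    ext x
    rfl
  map_add' a b := by
    apply Subtype.ext
    ext x
    rfl
  map_mul' a b := by
    apply Subtype.ext
    ext x
    have h1 : (a.1.1 * b.1.1).coeff (t x) =
        conv (fun x => a.1.1.coeff x) (fun x => b.1.1.coeff x) (t x) :=
      congrFun (coeff_mul_eq a.1.1 b.1.1) (t x)
    have h2 := congrFun (conv_res (p := p) Q R hQ t ht htr ((class_iff a.1.1).1 a.1.2)
      ((class_iff b.1.1).1 b.1.2) a.2) x
    have h3 := congrFun (coeff_mul_eq (ofF (fun c => a.1.1.coeff (t c)))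
      (ofF (fun c => b.1.1.coeff (t c)))) x
    show (a.1.1 * b.1.1).coeff (t x) =
      (ofF (fun c => a.1.1.coeff (t c)) * ofF (fun c => b.1.1.coeff (t c))).coeff x
    rw [h1]
    exact h2.trans h3.symm

instance : Module.Finite F (MonoidAlgebra F C) := inferInstance

/-- a block of a centraliser below a block -/
theorem blk_ext {p : ℕ} [Fact p.Prime] [IsAlgClosed F] [CharP F p] (Q R : Subgroup S)
    (hQ : IsPGroup p Q) (t : C →* S) (ht : Function.Injective t)
    (htr : ∀ x : S, x ∈ t.range ↔ x ∈ R ∧ x ∈ Subgroup.centralizer (Q : Set S))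
    {b : (S → F) → F} (hb : IsBlock b)
    (hd : ∀ f : S → F, IsClassFun f → (∀ x, x ∉ R → f x = 0) → (∀ c, f (t c) = 0) → b f = 0) :
    ∃ B : (C → F) → F, IsBlock B ∧ ∀ f : S → F, IsClassFun f → (∀ x, x ∉ R → f x = 0) →
      B (fun c => f (t c)) = b f := by
  obtain ⟨γ, h1, h2⟩ := lift_hom (F := F) (br Q R hQ t ht htr) (sc R)
    (by
      apply RingHom.ext
      intro c
      apply Subtype.ext
      ext x
      show (sc R c).1.1.coeff (t x) = (algebraMap F (MonoidAlgebra F C) c).coeff x
      rw [coeff_sc, coeff_algebraMap]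
      by_cases hx : x = 1
      · rw [if_pos hx, if_pos (by rw [hx, map_one])]
      · rw [if_neg hx, if_neg (fun h => hx (ht (by rw [map_one]; exact h)))])
    ((toRH hb).comp (ZS F R).subtype)
    (fun c => by
      show b (fun x => (sc R c).1.1.coeff x) = c
      have e : (fun x => (sc R c).1.1.coeff x) = c • (Pi.single 1 1 : S → F) := by
        funext x
        rw [coeff_sc, Pi.smul_apply, Pi.single_apply, smul_eq_mul, mul_ite, mul_one, mul_zero]
      rw [e, hb.smul, hb.one, mul_one]
      have := Pool.Agent.Y405.NV.class_const (H := S) (1 : F)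
      rwa [one_smul] at this)
    (fun w hw => by
      show b (fun x => w.1.1.coeff x) = 0
      refine hd _ ((class_iff w.1.1).1 w.1.2) w.2 fun c => ?_
      have h3 := congrArg (fun v : Subalgebra.center F (MonoidAlgebra F C) => v.1.coeff c) hw
      exact h3)
  let cc : ∀ f : C → F, IsClassFun f → Subalgebra.center F (MonoidAlgebra F C) :=
    fun f hf => ⟨ofF f, mem_alg.2 hf⟩
  let B : (C → F) → F := fun f => if h : IsClassFun f then γ (cc f h) else 0
  have hB : ∀ f (h : IsClassFun f), B f = γ (cc f h) := fun f h => dif_pos h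
  have hadd : ∀ f g : C → F, IsClassFun f → IsClassFun g → IsClassFun (f + g) := by
    intro f g hf hg a x
    rw [Pi.add_apply, Pi.add_apply, hf, hg]
  have hsm : ∀ (a : F) (f : C → F), IsClassFun f → IsClassFun (a • f) := by
    intro a f hf u x
    rw [Pi.smul_apply, Pi.smul_apply, hf]
  refine ⟨B, ⟨?_, ?_, ?_, ?_⟩, ?_⟩
  · intro f g hf hg
    rw [hB _ (hadd f g hf hg), hB _ hf, hB _ hg, ← map_add]
    congr 1
    apply Subtype.ext
    ext x
    rfl
  · intro a f hf
    rw [hB _ (hsm a f hf), hB _ hf]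
    have e : cc (a • f) (hsm a f hf) =
        algebraMap F (Subalgebra.center F (MonoidAlgebra F C)) a * cc f hf := by
      apply Subtype.ext
      have e1 : ((algebraMap F (Subalgebra.center F (MonoidAlgebra F C)) a * cc f hf :
          Subalgebra.center F (MonoidAlgebra F C)) : MonoidAlgebra F C) =
          a • (cc f hf : MonoidAlgebra F C) := by
        rw [← Algebra.smul_def]
        rfl
      rw [e1]
      ext x
      rfl
    rw [e, map_mul, h2]
  · have h3 : IsClassFun (Pi.single 1 1 : C → F) := by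
      have := Pool.Agent.Y405.NV.class_const (H := C) (1 : F)
      rwa [one_smul] at this
    rw [hB _ h3]
    have e : cc (Pi.single 1 1) h3 = 1 := by
      apply Subtype.ext
      ext x
      show (Pi.single 1 1 : C → F) x = (1 : MonoidAlgebra F C).coeff x
      rw [MonoidAlgebra.one_def, MonoidAlgebra.coeff_single, Finsupp.single_apply,
        Pi.single_apply]
      by_cases hx : x = 1
      · rw [if_pos hx, if_pos hx.symm]
      · rw [if_neg hx, if_neg (fun h => hx h.symm)]
    rw [e, map_one]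
  · intro f g hf hg
    have h3 := Pool.Agent.N457.AE.cl_conv hf hg
    rw [hB _ h3, hB _ hf, hB _ hg, ← map_mul]
    congr 1
    apply Subtype.ext
    ext x
    exact (congrFun (coeff_mul_eq (ofF f) (ofF g)) x).symm
  · intro f hf hf0
    have h3 : IsClassFun (fun c => f (t c)) := by
      intro g x
      show f (t (g * x * g⁻¹)) = f (t x)
      rw [map_mul, map_mul, map_inv]
      exact hf (t g) (t x)
    rw [hB _ h3]
    exact h1 ⟨⟨ofF f, (class_iff _).2 hf⟩, hf0⟩

end ext

/-! ### invariance of the block of an invariant character -/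

section inv

open Pool.Agent.N20.EW Pool.Agent.N20.AE Pool.Agent.N20.DI
open Pool.Agent.R674.Tw (Fixes)

variable {G S : Type} [Group G] [Group S] [Finite G] [Finite S] (j : G →* S)
  (hj : Function.Injective j) (hn : j.range.Normal)

/-- the automorphism of `G` given by conjugation with `k` -/
def al (k : S) : G ≃* G :=
  have := hn
  ((MonoidHom.ofInjective hj).trans (MulAut.conjNormal (H := j.range) k)).trans
    (MonoidHom.ofInjective hj).symm

lemma j_al (k : S) (x : G) : j (al j hj hn k x) = k * j x * k⁻¹ := by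
  have := hn
  have h1 : (MonoidHom.ofInjective hj (al j hj hn k x) : j.range) =
      MulAut.conjNormal (H := j.range) k (MonoidHom.ofInjective hj x) := by
    show MonoidHom.ofInjective hj ((MonoidHom.ofInjective hj).symm
      (MulAut.conjNormal (H := j.range) k (MonoidHom.ofInjective hj x))) = _
    rw [MulEquiv.apply_symm_apply]
  have h2 := congrArg Subtype.val h1
  rw [MulAut.conjNormal_apply] at h2
  exact h2

include hj hn

theorem inv_cv {F : Type} [Field F] (red : integralClosure ℤ ℂ →+* F) {ψ : G → ℂ}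
    (hψ : IsIrreducibleCharacter ψ)
    (hinv : ∀ (s : S) (x y : G), j y = s * j x * s⁻¹ → ψ y = ψ x) (k : S) (f f' : G → F)
    (hf : IsClassFun f) (hff : ∀ x y : G, j y = k * j x * k⁻¹ → f' y = f x) :
    centralValue red ψ f' = centralValue red ψ f := by
  let e := al j hj hn k
  have he : ∀ x, j (e x) = k * j x * k⁻¹ := j_al j hj hn k
  have hf' : IsClassFun f' := by
    intro g x
    obtain ⟨g', rfl⟩ := e.surjective g
    obtain ⟨x', rfl⟩ := e.surjective x
    rw [← map_inv, ← map_mul, ← map_mul, hff _ _ (he _), hff _ _ (he _)]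
    exact hf g' x'
  have h := Pool.Agent.Y286.NV.centralValue_comp red e ψ (Pool.Agent.Y286.NV.irr_class hψ) f' hf'
  have e1 : (fun x => ψ (e x)) = ψ := funext fun x => hinv k x (e x) (he x)
  have e2 : (fun x => f' (e x)) = f := funext fun x => hff x (e x) (he x)
  rw [e1, e2] at h
  exact h.symm

/-- a character of `S` above an invariant character of defect zero -/
theorem exists_chi (h6 : S_CLIFF) {p : ℕ} [Fact p.Prime] {F : Type} [Field F]
    (red : integralClosure ℤ ℂ →+* F) (hcyc : IsCyclic (S ⧸ j.range)) {ψ : G → ℂ}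
    (hψ : IsWt p (⊥ : Subgroup G) ψ)
    (hinv : ∀ (s : S) (x y : G), j y = s * j x * s⁻¹ → ψ y = ψ x) {z : S → F}
    (hz : IsClassFun z) (hz0 : ∀ x, x ∉ j.range → z x = 0)
    (hone : centralValue red ψ (fun x => z (j x)) = 1) :
    ∃ χ : S → ℂ, IsIrreducibleCharacter χ ∧ HasDef p (j.range.index.factorization p) χ ∧
      centralValue red χ z = 1 := by
  have hnn := hn
  let e : j.range ≃* G := (MonoidHom.ofInjective hj).symm
  have hje : ∀ x : j.range, j (e x) = x := fun x =>
    congrArg Subtype.val ((MonoidHom.ofInjective hj).apply_symm_apply x)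
  set n := j.range.index.factorization p with hn'
  have hcl := h6 p F red S j.range hcyc z hz hz0 1 n
  set ψ' : j.range → ℂ := fun x => ψ (e x) with hψ'
  have hirr : IsIrreducibleCharacter ψ' := Pool.Agent.Y63.AWC.irr_comp e hψ.irr
  have hsN : sN j.range ψ' = Nat.card S := by
    unfold sN
    refine Nat.card_congr (Equiv.subtypeUnivEquiv fun m => ?_)
    intro a a' haa
    refine hinv m (e a) (e a') ?_
    rw [hje, hje]
    exact haa
  have hcard : Nat.card S = Nat.card G * j.range.index := by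
    rw [← Subgroup.card_mul_index j.range, Nat.card_congr e.toEquiv]
  have hDg : Dg p n (sN j.range ψ') ψ' := by
    obtain ⟨m, hm1, hm2⟩ := hψ.defectZero
    refine ⟨m, ?_, ?_⟩
    · rw [← hm1, hψ']
      show ψ (e 1) = ψ 1
      rw [map_one]
    · rw [hsN, hcard, Nat.factorization_mul Nat.card_pos.ne' Subgroup.index_ne_zero_of_finite,
        Finsupp.add_apply, ← hm2, Subgroup.card_bot, Nat.factorization_one]
      rfl
  have hcv : centralValue red ψ' (fun n : j.range => z n) = 1 := by
    have h := Pool.Agent.Y286.NV.centralValue_comp red e ψ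
      (Pool.Agent.Y286.NV.irr_class hψ.irr) (fun x => z (j x)) (by
        intro g x
        show z (j (g * x * g⁻¹)) = z (j x)
        rw [map_mul, map_mul, map_inv]
        exact hz _ _)
    rw [hone] at h
    rw [← h]
    congr 1
    funext x
    show z x = z (j (e x))
    rw [hje]
  have hK : Kd p red n z 1 ≠ 0 := by
    intro h0
    rw [h0, mul_zero] at hcl
    have := Fintype.ofFinite j.range
    have hfin : Finite {ψ : j.range → ℂ // IsIrreducibleCharacter ψ ∧ Dg p n (sN j.range ψ) ψ ∧
        centralValue red ψ (fun n : j.range => z n) = 1} := by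
      have h1 : Set.Finite {ψ : j.range → ℂ | Pool.Agent.Helper884.IC.IsIrrChar ψ} :=
        Pool.Agent.Helper884.IC.irr_finite
      exact (h1.subset (fun ψ hψ => hψ.1) : Set.Finite {ψ : j.range → ℂ |
        IsIrreducibleCharacter ψ ∧ Dg p n (sN j.range ψ) ψ ∧
        centralValue red ψ (fun n : j.range => z n) = 1}).to_subtype
    have := Fintype.ofFinite {ψ : j.range → ℂ // IsIrreducibleCharacter ψ ∧
      Dg p n (sN j.range ψ) ψ ∧ centralValue red ψ (fun n : j.range => z n) = 1}
    rw [finsum_eq_sum_of_fintype] at hcl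
    have h2 := (Finset.sum_eq_zero_iff.1 hcl.symm) ⟨ψ', hirr, hDg, hcv⟩ (Finset.mem_univ _)
    have h3 : sN j.range ψ' ^ 2 = 0 := h2
    rw [hsN] at h3
    exact Nat.card_pos.ne' (pow_eq_zero_iff (two_ne_zero) |>.1 h3)
  unfold Kd at hK
  obtain ⟨⟨⟨χ, hχ⟩⟩, -⟩ := Nat.card_ne_zero.1 hK
  exact ⟨χ, hχ.1, hχ.2.1, hχ.2.2⟩

end inv

/-! ### the theorem -/

open Pool.Agent.N20.EW Pool.Agent.N20.AE Pool.Agent.N20.DI

theorem D1 (h1 : S_MM) (h2 : S_HT) (h3 : S_ZE) (h4 : S_DF) (h6 : S_CLIFF) (h7 : S_EXT) :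
    S_D1 := by
  intro p _ F _ _ _ red G K _ _ _ _ i hi ψ hψ S hGS hSp hinv
  let j : G →* S := i.codRestrict S (fun g => hGS ⟨g, rfl⟩)
  have hj : Function.Injective j := fun a b h => hi.inj (congrArg Subtype.val h)
  have hmem : ∀ x : S, x ∈ j.range ↔ (x : K) ∈ i.range := by
    intro x
    constructor
    · rintro ⟨g, rfl⟩
      exact ⟨g, rfl⟩
    · rintro ⟨g, hg⟩
      exact ⟨g, Subtype.ext hg⟩
  have hn : j.range.Normal := ⟨fun x hx s => by
    rw [hmem] at hx ⊢
    exact hi.normal.conj_mem _ hx _⟩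
  have hin := hi.normal
  have hcyc : IsCyclic (S ⧸ j.range) := by
    have hcK : IsCyclic (K ⧸ i.range) := by
      obtain ⟨t, ht⟩ := hi.cyc
      refine ⟨(t : K ⧸ i.range), fun x => ?_⟩
      obtain ⟨k, rfl⟩ := QuotientGroup.mk_surjective x
      obtain ⟨n, g, hk⟩ := ht k
      refine ⟨n, ?_⟩
      show (t : K ⧸ i.range) ^ n = (k : K ⧸ i.range)
      rw [hk, ← QuotientGroup.mk_zpow, QuotientGroup.eq]
      rw [inv_mul_cancel_left]
      exact ⟨g, rfl⟩
    refine isCyclic_of_injective (QuotientGroup.map j.range i.range S.subtype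
      (fun x hx => (hmem x).1 hx)) ?_
    rw [injective_iff_map_eq_one]
    intro x hx
    obtain ⟨s, rfl⟩ := QuotientGroup.mk_surjective x
    have h : ((s : K) : K ⧸ i.range) = 1 := hx
    rw [QuotientGroup.eq_one_iff] at h ⊢
    exact (hmem s).2 h
  obtain ⟨hBb, hBd⟩ := (h4 p F red G).1 ψ hψ
  have hinv' : ∀ (s : S) (x y : G), j y = s * j x * s⁻¹ → ψ y = ψ x :=
    fun s x y hxy => hinv s s.2 x y (congrArg Subtype.val hxy)
  obtain ⟨z, hz⟩ := h3 p F G S j (centralValue red ψ) ⊥ hj hn hBb hBd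
    (inv_cv j hj hn red hψ.irr hinv')
  obtain ⟨χ, hχ, hχd, hχz⟩ := exists_chi j hj hn h6 red hcyc hψ hinv' hz.cl hz.supp hz.one
  have hb : IsBlock (centralValue red χ) := Pool.Agent.Y930.NV.cvh F red S χ hχ
  obtain ⟨B', hB', hB'z⟩ := h7 F G S j hj hn (centralValue red χ) hb
  have hres : ∀ f : S → F, IsClassFun f → IsClassFun (fun x : G => f (j x)) := by
    intro f hf g x
    show f (j (g * x * g⁻¹)) = f (j x)
    rw [map_mul, map_mul, map_inv]
    exact hf _ _
  have hB1 : B' (fun x => z (j x)) = 1 := (hB'z z hz.cl hz.supp).trans hχz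
  have hstar : ∀ f : S → F, IsClassFun f → (∀ x, x ∉ j.range → f x = 0) →
      centralValue red ψ (fun x => f (j x)) = centralValue red χ f := by
    intro f hf hf0
    rw [← hB'z f hf hf0]
    exact (hz.sep B' hB' hB1 _ (hres f hf)).symm
  obtain ⟨⟨Q1, hQ1⟩, hmm, hcc⟩ := h1 p F S (centralValue red χ) hb
  obtain ⟨y0, hy0, hcy0⟩ := Pool.Agent.N691.AECV.blk_exists hb z hz.cl
    (by rw [hχz]; exact one_ne_zero)
  have hy0r : y0 ∈ j.range := by
    by_contra h
    exact hy0 (hz.supp _ h)
  obtain ⟨y, rfl⟩ := hy0r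
  obtain ⟨g, hg⟩ := hmm Q1 hQ1 (j y) hcy0
  set Q : Subgroup S := conjSub g Q1 with hQdef
  have hQd : IsDefectGroup p (centralValue red χ) Q := (hcc Q1 hQ1 Q).2 ⟨g, rfl⟩
  have hQp : IsPGroup p Q := hQd.choose_spec.2.2.2.1
  have hfree : ∀ w : G, z (j w) ≠ 0 → ∀ P : Subgroup G, IsPGroup p P →
      P ≤ Subgroup.centralizer {w} → P = ⊥ := by
    intro w hw P hP hPw
    obtain ⟨g, hg⟩ := hz.ideal w hw P hP hPw
    rw [eq_bot_iff]
    intro x hx
    have h := hg (conj_mem_conjSub (g := g) hx)
    rw [Subgroup.mem_bot, mul_inv_eq_one, mul_eq_left] at h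
    exact Subgroup.mem_bot.2 h
  have hQr : Q ⊓ j.range = ⊥ := by
    have hP : IsPGroup p (Q.comap j) := IsPGroup.comap_of_injective hQp j hj
    have hPc : Q.comap j ≤ Subgroup.centralizer {y} := by
      intro s hs
      rw [Subgroup.mem_centralizer_iff]
      intro u hu
      rw [Set.mem_singleton_iff.1 hu]
      have h := Subgroup.mem_centralizer_iff.1 (hg (Subgroup.mem_comap.1 hs)) (j y) rfl
      apply hj
      rw [map_mul, map_mul]
      exact h
    have hbot := hfree y hy0 _ hP hPc
    rw [eq_bot_iff]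
    rintro x ⟨hx, w, rfl⟩
    have hw : w ∈ Q.comap j := hx
    rw [hbot, Subgroup.mem_bot] at hw
    rw [hw, map_one]
    exact Subgroup.one_mem _
  -- cardinalities
  have hSG : IsPGroup p (S ⧸ j.range) := by
    intro x
    obtain ⟨s, rfl⟩ := QuotientGroup.mk_surjective x
    obtain ⟨k, hk⟩ := hSp s s.2
    refine ⟨k, ?_⟩
    rw [← QuotientGroup.mk_pow, QuotientGroup.eq_one_iff, hmem]
    exact hk
  obtain ⟨m, hm⟩ := hSG.exists_card_eq
  have hidx : j.range.index = p ^ m := hm
  have hfm : j.range.index.factorization p = m := by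
    rw [hidx, Nat.factorization_pow, Finsupp.smul_apply, Nat.Prime.factorization_self Fact.out,
      smul_eq_mul, mul_one]
  obtain ⟨q, hq⟩ := hQp.exists_card_eq
  rw [hfm] at hχd
  have hmq : m ≤ q := h2 p F red S (centralValue red χ) hb χ hχ (fun f _ => rfl) m hχd Q hQd q hq
  have hrel : j.range.relIndex Q = Nat.card Q := by
    have hc2 := Subgroup.relIndex_mul_relIndex ⊥ (Q ⊓ j.range) Q bot_le inf_le_left
    rw [Subgroup.relIndex_bot_left, Subgroup.relIndex_bot_left, Subgroup.inf_relIndex_left, hQr,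
      Subgroup.card_bot, one_mul] at hc2
    exact hc2
  have hsup : j.range ⊔ Q = ⊤ := by
    have hd1 : j.range.relIndex (Q ⊔ j.range) = j.range.relIndex Q :=
      Subgroup.relIndex_sup_right Q j.range
    have hd2 := Subgroup.relIndex_mul_index (le_sup_right : j.range ≤ Q ⊔ j.range)
    rw [hd1, hrel, hq, hidx] at hd2
    have hpp : 0 < p := (Fact.out : p.Prime).pos
    have hle : p ^ m ≤ p ^ q := Nat.pow_le_pow_right hpp hmq
    have hi0 : (Q ⊔ j.range).index ≠ 0 := Subgroup.index_ne_zero_of_finite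
    have hone : (Q ⊔ j.range).index = 1 := by
      by_contra hne
      have h2' : 2 ≤ (Q ⊔ j.range).index := by omega
      have hpos : 0 < p ^ q := Nat.pow_pos hpp
      have : p ^ q * 2 ≤ p ^ q * (Q ⊔ j.range).index := Nat.mul_le_mul_left _ h2'
      omega
    rw [sup_comm]
    exact Subgroup.index_eq_one.1 hone
  -- the pair in K
  set Q' : Subgroup K := Q.map S.subtype with hQ'
  have hQ'p : IsPGroup p Q' := hQp.map _
  have hQ'r : Q' ⊓ i.range = ⊥ := by
    rw [eq_bot_iff]
    rintro x ⟨⟨u, hu, rfl⟩, hx⟩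
    have : u ∈ Q ⊓ j.range := ⟨hu, (hmem u).2 hx⟩
    rw [hQr, Subgroup.mem_bot] at this
    rw [this]
    exact Subgroup.one_mem _
  have hQ'S : i.range ⊔ Q' = S := by
    have h := congrArg (Subgroup.map S.subtype) hsup
    rw [Subgroup.map_sup, MonoidHom.map_range] at h
    have e1 : S.subtype.comp j = i := rfl
    have e2 : Subgroup.map S.subtype ⊤ = S := by
      rw [← MonoidHom.range_eq_map, Subgroup.range_subtype]
    rw [e1, e2] at h
    exact h
  let t : CQ i Q' →* S := j.comp (CQ i Q').subtype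
  have ht : Function.Injective t := hj.comp (Subgroup.subtype_injective _)
  have htr : ∀ x : S, x ∈ t.range ↔ x ∈ j.range ∧ x ∈ Subgroup.centralizer (Q : Set S) := by
    intro x
    constructor
    · rintro ⟨c, rfl⟩
      refine ⟨⟨c, rfl⟩, ?_⟩
      rw [Subgroup.mem_centralizer_iff]
      intro u hu
      have hc := Subgroup.mem_centralizer_iff.1 (Subgroup.mem_comap.1 c.2) (u : K)
        ⟨u, hu, rfl⟩
      exact Subtype.ext hc
    · rintro ⟨⟨w, rfl⟩, hw⟩
      refine ⟨⟨w, ?_⟩, rfl⟩
      rw [Subgroup.mem_comap, Subgroup.mem_centralizer_iff]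
      rintro _ ⟨u, hu, rfl⟩
      exact congrArg Subtype.val (Subgroup.mem_centralizer_iff.1 hw u hu)
  obtain ⟨Bt, hBt, hBtf⟩ := blk_ext (p := p) Q j.range hQp t ht htr hb (by
    intro f hf hf0 hft
    by_contra hne
    obtain ⟨x, hfx, hcx⟩ := Pool.Agent.N691.AECV.blk_exists hb f hf hne
    have hxr : x ∈ j.range := by
      by_contra h
      exact hfx (hf0 _ h)
    obtain ⟨u, hu⟩ := hmm Q hQd x hcx
    have hx' : u⁻¹ * x * u ∈ t.range := by
      rw [htr]
      constructor
      · have := hn.conj_mem x hxr u⁻¹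
        rwa [inv_inv] at this
      · rw [Subgroup.mem_centralizer_iff]
        intro r hr
        have h5 := Subgroup.mem_centralizer_iff.1 (hu (conj_mem_conjSub (g := u) hr)) x rfl
        calc r * (u⁻¹ * x * u) = u⁻¹ * ((u * r * u⁻¹) * x) * u := by group
          _ = u⁻¹ * (x * (u * r * u⁻¹)) * u := by rw [h5]
          _ = u⁻¹ * x * u * r := by group
    obtain ⟨c, hc⟩ := hx'
    have h5 := hft c
    rw [hc] at h5
    have h6 := hf u⁻¹ x
    rw [inv_inv, h5] at h6
    exact hfx h6.symm)
  have hBt1 : Bt (fun c => z (t c)) = 1 := (hBtf z hz.cl hz.supp).trans hχz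
  have hrest : ∀ f : S → F, IsClassFun f → IsClassFun (fun c : CQ i Q' => f (t c)) := by
    intro f hf g x
    show f (t (g * x * g⁻¹)) = f (t x)
    rw [map_mul, map_mul, map_inv]
    exact hf _ _
  obtain ⟨c, hc1, hc2⟩ := Pool.Agent.N691.AECV.blk_exists hBt (fun c => z (t c)) (hrest z hz.cl)
    (by rw [hBt1]; exact one_ne_zero)
  have hpc : ¬ p ∣ Nat.card ↥(Subgroup.centralizer {c}) := by
    intro hdvd
    obtain ⟨x, hx⟩ := exists_prime_orderOf_dvd_card' p hdvd
    have hxo : orderOf ((x : CQ i Q') : G) = p := by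
      rw [Subgroup.orderOf_coe, Subgroup.orderOf_coe, hx]
    have hbot := hfree (c : G) hc1 (Subgroup.zpowers ((x : CQ i Q') : G))
      (IsPGroup.of_card (n := 1) (by rw [Nat.card_zpowers, hxo, pow_one])) (by
        rw [Subgroup.zpowers_le, Subgroup.mem_centralizer_iff]
        intro u hu
        rw [Set.mem_singleton_iff.1 hu]
        exact congrArg Subtype.val (Subgroup.mem_centralizer_iff.1 x.2 c rfl))
    rw [Subgroup.zpowers_eq_bot] at hbot
    rw [hbot, orderOf_one] at hxo
    exact (Fact.out : p.Prime).one_lt.ne hxo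
  obtain ⟨θ, hθ, hθf⟩ := (h4 p F red (CQ i Q')).2 Bt hBt c hc2 hpc
  refine ⟨Q', hQ'p, hQ'r, hQ'S, θ, hθ, ?_⟩
  intro f hf hfQ
  let ft : S → F := fun s => if h : ∃ g, j g = s then f h.choose else 0
  have hftj : ∀ g, ft (j g) = f g := by
    intro g
    have h : ∃ g', j g' = j g := ⟨g, rfl⟩
    show (if h : ∃ g', j g' = j g then f h.choose else 0) = f g
    rw [dif_pos h, hj h.choose_spec]
  have hft0 : ∀ x, x ∉ j.range → ft x = 0 := fun x hx => dif_neg hx
  have hftc : IsClassFun ft := by
    intro s x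
    by_cases hx : x ∈ j.range
    · obtain ⟨w, rfl⟩ := hx
      have hs : s ∈ j.range ⊔ Q := by
        rw [hsup]
        exact Subgroup.mem_top s
      rw [Subgroup.mem_sup_of_normal_left] at hs
      obtain ⟨_, ⟨g0, rfl⟩, r, hr, rfl⟩ := hs
      obtain ⟨w', hw'⟩ := hn.conj_mem (j w) ⟨w, rfl⟩ r
      have e1 : j g0 * r * j w * (j g0 * r)⁻¹ = j (g0 * w' * g0⁻¹) := by
        rw [map_mul, map_mul, map_inv, hw']
        group
      rw [e1, hftj, hftj, hf]
      exact hfQ (r : K) ⟨r, hr, rfl⟩ w w' (congrArg Subtype.val hw')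
    · have hx' : s * x * s⁻¹ ∉ j.range := by
        intro h
        apply hx
        have := hn.conj_mem _ h s⁻¹
        have e1 : s⁻¹ * (s * x * s⁻¹) * s⁻¹⁻¹ = x := by group
        rwa [e1] at this
      rw [hft0 _ hx, hft0 _ hx']
  have e1 : f = fun x => ft (j x) := funext fun x => (hftj x).symm
  have e2 : (fun c : CQ i Q' => f c) = fun c => ft (t c) := funext fun c => (hftj c).symm
  have h8 := hθf (fun c : CQ i Q' => f c) (fun g x => hf g x)
  rw [h8, e2, hBtf ft hftc hft0, ← hstar ft hftc hft0, ← e1]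

end Pool.Agent.N878.EW
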