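import Mathlib
import Pool.Agent.N906.NT.Stm

/-!
# Project NT (helper906), WINN: the choice of the parameter (helper878)
-/

set_option autoImplicit false
set_option linter.all false

namespace Pool.Agent.N878.NTW

open Finset Filter Topology
open Pool.Agent.N906.NT

theorem ev (r t : ℕ) (a e M m : ℝ) (hr : 1 ≤ r) (ht : 1 ≤ t) (ha : 0 < a) (he : 0 < e)
    (hm : 0 < m) : ∃ Z₀ : ℝ, 1 < Z₀ ∧ ∀ Z : ℝ, Z₀ ≤ Z →
      (r : ℝ) + 1 ≤ Real.log Z ∧ 2 ^ (r + 1) * t / a * (r + 1) ≤ Real.log Z ∧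
      Real.log Z ^ r ≤ Z ^ e ∧ 2 * Z ^ (-(1 / ((r : ℝ) + 1))) < m ∧
      M * r / a ≤ Z ^ (1 / 4 : ℝ) := by
  have h1 : Tendsto Real.log atTop atTop := Real.tendsto_log_atTop
  have e1 : ∀ᶠ Z : ℝ in atTop, (r : ℝ) + 1 ≤ Real.log Z := h1.eventually_ge_atTop _
  have e2 : ∀ᶠ Z : ℝ in atTop, 2 ^ (r + 1) * (t : ℝ) / a * (r + 1) ≤ Real.log Z :=
    h1.eventually_ge_atTop _
  have e3 : ∀ᶠ Z : ℝ in atTop, Real.log Z ^ r ≤ Z ^ e := by
    have hr0 : (0 : ℝ) < r := by exact_mod_cast hr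
    have h2 := (isLittleO_log_rpow_atTop (r := e / r) (by positivity)).bound one_pos
    filter_upwards [h2, eventually_ge_atTop (1 : ℝ)] with Z hZ hZ1
    rw [one_mul, Real.norm_eq_abs, Real.norm_eq_abs, abs_of_nonneg (Real.log_nonneg hZ1),
      abs_of_nonneg (Real.rpow_nonneg (by linarith) _)] at hZ
    have h3 := pow_le_pow_left₀ (Real.log_nonneg hZ1) hZ r
    rwa [← Real.rpow_natCast (Z ^ (e / r)) r, ← Real.rpow_mul (by linarith),
      div_mul_cancel₀ _ hr0.ne'] at h3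
  have e4 : ∀ᶠ Z : ℝ in atTop, 2 * Z ^ (-(1 / ((r : ℝ) + 1))) < m := by
    have h2 : Tendsto (fun Z : ℝ => 2 * Z ^ (-(1 / ((r : ℝ) + 1)))) atTop (𝓝 (2 * 0)) :=
      (tendsto_rpow_neg_atTop (by positivity)).const_mul 2
    rw [mul_zero] at h2
    exact h2.eventually_lt_const hm
  have e5 : ∀ᶠ Z : ℝ in atTop, M * r / a ≤ Z ^ (1 / 4 : ℝ) :=
    (tendsto_rpow_atTop (by norm_num)).eventually_ge_atTop _
  obtain ⟨Z₁, hZ₁⟩ := eventually_atTop.1 (e1.and (e2.and (e3.and (e4.and e5))))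
  exact ⟨max Z₁ 2, lt_of_lt_of_le one_lt_two (le_max_right _ _), fun Z hZ =>
    hZ₁ Z (le_trans (le_max_left _ _) hZ)⟩

theorem cst_pow (r t : ℕ) (hr : 1 ≤ r) (ht : 1 ≤ t) :
    cst r t ^ (r + 1) = (((r : ℝ) + 1) / r) ^ (2 * r + 1) * t := by
  have hr0 : (0 : ℝ) < r := by exact_mod_cast hr
  unfold cst
  rw [mul_pow, ← Real.rpow_natCast _ (r + 1), ← Real.rpow_natCast ((t : ℝ) ^ _) (r + 1),
    ← Real.rpow_mul (by positivity), ← Real.rpow_mul (by positivity)]
  congr 1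
  · rw [← Real.rpow_natCast _ (2 * r + 1)]
    congr 1
    push_cast
    field_simp
  · have : 1 / ((r : ℝ) + 1) * ((r + 1 : ℕ) : ℝ) = 1 := by
      push_cast
      field_simp
    rw [this, Real.rpow_one]

theorem choice (r t : ℕ) (hr : 1 ≤ r) (ht : 1 ≤ t) (a e c M m : ℝ) (ha : 0 < a) (ha1 : a ≤ 1)
    (he : 0 < e) (he1 : e ≤ 1 / 2) (hm : 0 < m) (hc : 0 < c) :
    ∃ Z₀ : ℝ, 1 < Z₀ ∧ ∀ Z : ℝ, Z₀ ≤ Z → ∃ u B : ℝ, 0 < u ∧ u < 1 ∧ 2 * u < m ∧ 0 < B ∧ M ≤ B ∧
      u * (a * Z) = r * B ∧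
      (∀ s : ℝ, 0 < s → s ≤ 2 →
        (t : ℝ) / (r * (r * (s * u * Real.log (1 / (s * u)))) ^ r) ≤ B / s ^ r) ∧
      (1 - r * e) * B ≤ t / (r * (r * (u * Real.log (1 / u))) ^ r) ∧
      √Z < u ^ (-(r * (1 + e))) ∧ 4 * B * u ^ (r * (1 + e)) ≤ c ∧
      a * (cst r t * (Z / Real.log Z) ^ ((r : ℝ) / (r + 1))) ≤ (r + 1) * B ∧
      (r + 1) * B ≤ cst r t * (Z / Real.log Z) ^ ((r : ℝ) / (r + 1)) := by
  have hr0 : (0 : ℝ) < r := by exact_mod_cast hr
  have hr1 : (1 : ℝ) ≤ r := by exact_mod_cast hr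
  have ht0 : (0 : ℝ) < t := by exact_mod_cast ht
  have ht1 : (1 : ℝ) ≤ t := by exact_mod_cast ht
  have hcp : 0 < (c / (4 * t)) ^ (1 / (r * e)) := Real.rpow_pos_of_pos (by positivity) _
  obtain ⟨Z₀, hZ₀, hZ⟩ := ev r t a e M (min m (min 1 ((c / (4 * t)) ^ (1 / (r * e))))) hr ht ha he
    (lt_min hm (lt_min one_pos hcp))
  refine ⟨Z₀, hZ₀, fun Z hZZ => ?_⟩
  obtain ⟨f1, f2, f3, f4, f5⟩ := hZ Z hZZ
  have hZ1 : 1 < Z := lt_of_lt_of_le hZ₀ hZZ
  have hZp : 0 < Z := by linarith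
  obtain ⟨L, hLd⟩ : ∃ L : ℝ, L = Real.log Z := ⟨_, rfl⟩
  rw [← hLd] at f1 f2 f3
  have hL0 : 0 < L := by linarith
  obtain ⟨l, hld⟩ : ∃ l : ℝ, l = L / (r + 1) := ⟨_, rfl⟩
  have hl1 : 1 ≤ l := by rw [hld, le_div_iff₀ (by positivity)]; linarith
  have hl0 : 0 < l := by linarith
  have hl2 : 2 ^ (r + 1) * t / a ≤ l := by rw [hld, le_div_iff₀ (by positivity)]; exact f2
  have hrlL : r * l ≤ L := by
    rw [hld, ← mul_div_assoc, div_le_iff₀ (by positivity)]
    nlinarith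
  obtain ⟨Q, hQd⟩ : ∃ Q : ℝ, Q = r ^ r * a * Z * l ^ r / t := ⟨_, rfl⟩
  have hQ0 : 0 < Q := by rw [hQd]; positivity
  -- `2 ^ (r + 1) * Z ≤ Q`
  have hQ1 : 2 ^ (r + 1) * Z ≤ Q := by
    rw [hQd, le_div_iff₀ ht0]
    have g1 : 2 ^ (r + 1) * (t : ℝ) ≤ l * a := by rwa [div_le_iff₀ ha] at hl2
    have g2 : l ≤ l ^ r := le_self_pow₀ hl1 (by omega)
    have g3 : (1 : ℝ) ≤ (r : ℝ) ^ r := one_le_pow₀ hr1
    have g4 : l * a ≤ r ^ r * (l ^ r * a) := by
      have : l * a ≤ l ^ r * a := mul_le_mul_of_nonneg_right g2 ha.le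
      have h5 : 0 ≤ l ^ r * a := by positivity
      nlinarith
    have g5 := mul_le_mul_of_nonneg_right (g1.trans g4) hZp.le
    calc 2 ^ (r + 1) * Z * t = 2 ^ (r + 1) * t * Z := by ring
      _ ≤ r ^ r * (l ^ r * a) * Z := g5
      _ = r ^ r * a * Z * l ^ r := by ring
  have hQZ : Z < Q := by
    have : (1 : ℝ) < 2 ^ (r + 1) := one_lt_pow₀ (by norm_num) (by omega)
    nlinarith
  have hQ2 : Q ≤ Z ^ (1 + e) := by
    rw [Real.rpow_add hZp, Real.rpow_one]
    have g1 : (r * l) ^ r ≤ L ^ r := pow_le_pow_left₀ (by positivity) hrlL r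
    have g2 : Q ≤ Z * (r * l) ^ r := by
      rw [hQd, div_le_iff₀ ht0, mul_pow]
      have h5 : 0 ≤ (r : ℝ) ^ r * Z * l ^ r := by positivity
      calc (r : ℝ) ^ r * a * Z * l ^ r = (r ^ r * Z * l ^ r) * a := by ring
        _ ≤ (r ^ r * Z * l ^ r) * t := mul_le_mul_of_nonneg_left (ha1.trans ht1) h5
        _ = _ := by ring
    exact g2.trans (mul_le_mul_of_nonneg_left (g1.trans f3) hZp.le)
  obtain ⟨u, hud⟩ : ∃ u : ℝ, u = Q ^ (-(1 / ((r : ℝ) + 1))) := ⟨_, rfl⟩
  have hu0 : 0 < u := by rw [hud]; exact Real.rpow_pos_of_pos hQ0 _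
  have huQ : u ^ (r + 1) * Q = 1 := by
    rw [hud, ← Real.rpow_natCast _ (r + 1), ← Real.rpow_mul hQ0.le]
    have : -(1 / ((r : ℝ) + 1)) * ((r + 1 : ℕ) : ℝ) = -1 := by
      push_cast
      field_simp
    rw [this, Real.rpow_neg_one, inv_mul_cancel₀ hQ0.ne']
  have hr1' : 0 < 1 / ((r : ℝ) + 1) := by positivity
  have huZ' : u ≤ Z ^ (-(1 / ((r : ℝ) + 1))) := by
    rw [hud]
    exact Real.rpow_le_rpow_of_nonpos hZp hQZ.le (by linarith)
  have hum : 2 * u < min m (min 1 ((c / (4 * t)) ^ (1 / (r * e)))) := by linarith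
  have hum1 : 2 * u < m := hum.trans_le (min_le_left _ _)
  have hum2 : 2 * u < 1 := hum.trans_le ((min_le_right _ _).trans (min_le_left _ _))
  have hum3 : u ≤ (c / (4 * t)) ^ (1 / (r * e)) := by
    have := hum.trans_le ((min_le_right _ _).trans (min_le_right _ _))
    linarith
  have hu1 : u < 1 := by linarith
  have hlogu : Real.log (1 / u) = Real.log Q / (r + 1) := by
    rw [one_div, Real.log_inv, hud, Real.log_rpow hQ0]
    ring
  have hlow : Real.log 2 + l ≤ Real.log (1 / u) := by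
    rw [hlogu, le_div_iff₀ (by positivity), hld]
    have g1 := Real.log_le_log (by positivity) hQ1
    rw [Real.log_mul (by positivity) hZp.ne', Real.log_pow, ← hLd] at g1
    push_cast at g1
    calc (Real.log 2 + L / (r + 1)) * (r + 1) = (r + 1) * Real.log 2 + L := by field_simp
      _ ≤ _ := g1
  have hup : Real.log (1 / u) ≤ (1 + e) * l := by
    rw [hlogu, div_le_iff₀ (by positivity), hld]
    have g1 := Real.log_le_log hQ0 hQ2
    rw [Real.log_rpow hZp, ← hLd] at g1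
    calc Real.log Q ≤ (1 + e) * L := g1
      _ = (1 + e) * (L / (r + 1)) * (r + 1) := by field_simp
  obtain ⟨B, hBd⟩ : ∃ B : ℝ, B = t / (r * (r * (u * l)) ^ r) := ⟨_, rfl⟩
  have hB0 : 0 < B := by rw [hBd]; positivity
  have hid : u ^ (r + 1) * (r ^ r * a * Z * l ^ r) = t := by
    have : r ^ r * a * Z * l ^ r = Q * t := by rw [hQd]; field_simp
    rw [this, ← mul_assoc, huQ, one_mul]
  have huB : u * (a * Z) = r * B := by
    rw [hBd, ← mul_div_assoc, eq_div_iff (by positivity), mul_pow, mul_pow, ← hid]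
    ring
  have hlog2 : 0 < Real.log 2 := Real.log_pos one_lt_two
  have hll : 0 < Real.log (1 / u) := by linarith
  refine ⟨u, B, hu0, hu1, hum1, hB0, ?_, huB, ?_, ?_, ?_, ?_, ?_, ?_⟩
  · -- `M ≤ B`
    have g1 : Z ^ (-((1 + e) / ((r : ℝ) + 1))) ≤ u := by
      rw [hud]
      have g2 := Real.rpow_le_rpow_of_nonpos hQ0 hQ2 (z := -(1 / ((r : ℝ) + 1))) (by linarith)
      refine le_trans (le_of_eq ?_) g2
      rw [← Real.rpow_mul hZp.le]
      congr 1
      ring
    have g2 : Z ^ (1 / 4 : ℝ) ≤ u * Z := by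
      have g3 : Z ^ (1 / 4 : ℝ) ≤ Z ^ (-((1 + e) / ((r : ℝ) + 1)) + 1) := by
        apply Real.rpow_le_rpow_of_exponent_le hZ1.le
        have : (1 + e) / ((r : ℝ) + 1) ≤ 3 / 4 := by
          rw [div_le_iff₀ (by positivity)]
          nlinarith
        linarith
      refine g3.trans ?_
      rw [Real.rpow_add hZp, Real.rpow_one]
      exact mul_le_mul_of_nonneg_right g1 hZp.le
    have g3 : M * r / a ≤ u * Z := f5.trans g2
    rw [div_le_iff₀ ha] at g3
    have g4 : r * M ≤ r * B := by rw [← huB]; linarith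
    exact le_of_mul_le_mul_left g4 hr0
  · intro s hs hs2
    have g1 : l ≤ Real.log (1 / (s * u)) := by
      have : Real.log (1 / (s * u)) = Real.log (1 / u) - Real.log s := by
        rw [one_div, Real.log_inv, Real.log_mul hs.ne' hu0.ne', one_div, Real.log_inv]
        ring
      rw [this]
      have := Real.log_le_log hs hs2
      linarith
    have g2 : B / s ^ r = t / (r * (r * (s * u * l)) ^ r) := by
      rw [hBd, div_div]
      congr 1
      rw [show (r : ℝ) * (s * u * l) = s * (r * (u * l)) by ring, mul_pow s]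
      ring
    rw [g2]
    apply div_le_div_of_nonneg_left ht0.le (by positivity)
    apply mul_le_mul_of_nonneg_left _ hr0.le
    apply pow_le_pow_left₀ (by positivity)
    apply mul_le_mul_of_nonneg_left _ hr0.le
    exact mul_le_mul_of_nonneg_left g1 (by positivity)
  · have g1 : (r * (u * Real.log (1 / u))) ^ r ≤ (1 + e) ^ r * (r * (u * l)) ^ r := by
      rw [← mul_pow]
      apply pow_le_pow_left₀ (by positivity)
      have := mul_le_mul_of_nonneg_left hup (by positivity : 0 ≤ r * u)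
      calc r * (u * Real.log (1 / u)) = r * u * Real.log (1 / u) := by ring
        _ ≤ r * u * ((1 + e) * l) := this
        _ = _ := by ring
    have g2 : (1 - r * e) * (1 + e) ^ r ≤ 1 := by
      have g3 : 1 + (r : ℝ) * (-e) ≤ (1 + -e) ^ r := one_add_mul_le_pow (by linarith) r
      have g4 : (1 - r * e) * (1 + e) ^ r ≤ (1 + -e) ^ r * (1 + e) ^ r := by
        apply mul_le_mul_of_nonneg_right _ (by positivity)
        linarith
      refine g4.trans ?_
      rw [← mul_pow]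
      apply pow_le_one₀
      · nlinarith
      · nlinarith
    rw [le_div_iff₀ (by positivity)]
    by_cases h0 : 0 ≤ 1 - r * e
    · calc (1 - r * e) * B * (r * (r * (u * Real.log (1 / u))) ^ r)
          ≤ (1 - r * e) * B * (r * ((1 + e) ^ r * (r * (u * l)) ^ r)) := by
            apply mul_le_mul_of_nonneg_left _ (by positivity)
            exact mul_le_mul_of_nonneg_left g1 hr0.le
        _ = ((1 - r * e) * (1 + e) ^ r) * (B * (r * (r * (u * l)) ^ r)) := by ring
        _ = ((1 - r * e) * (1 + e) ^ r) * t := by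
            congr 1
            rw [hBd]
            field_simp
        _ ≤ 1 * t := mul_le_mul_of_nonneg_right g2 ht0.le
        _ = t := one_mul _
    · push Not at h0
      have : (1 - r * e) * B * (r * (r * (u * Real.log (1 / u))) ^ r) ≤ 0 := by
        have h5 : 0 ≤ B * (r * (r * (u * Real.log (1 / u))) ^ r) := by positivity
        rw [mul_assoc]
        exact mul_nonpos_of_nonpos_of_nonneg h0.le h5
      linarith
  · -- `√Z < u ^ ...`
    have g1 : u ^ (-(r * (1 + e))) = Q ^ (r * (1 + e) / ((r : ℝ) + 1)) := by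
      rw [hud, ← Real.rpow_mul hQ0.le]
      congr 1
      field_simp
    rw [g1, Real.sqrt_eq_rpow]
    have g2 : Q ^ (1 / 2 : ℝ) ≤ Q ^ (r * (1 + e) / ((r : ℝ) + 1)) := by
      apply Real.rpow_le_rpow_of_exponent_le (by linarith)
      rw [le_div_iff₀ (by positivity)]
      nlinarith
    exact lt_of_lt_of_le (Real.rpow_lt_rpow hZp.le hQZ (by norm_num)) g2
  · -- the sum over the primes
    have g1 : B * u ^ r = t / (r * (r * l) ^ r) := by
      rw [hBd, div_mul_eq_mul_div, div_eq_div_iff (by positivity) (by positivity)]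
      rw [show (r : ℝ) * (u * l) = u * (r * l) by ring, mul_pow u]
      ring
    have g2 : B * u ^ r ≤ t := by
      rw [g1]
      apply div_le_self ht0.le
      have : 1 ≤ (r * l) ^ r := one_le_pow₀ (by nlinarith)
      nlinarith
    have g3 : u ^ ((r : ℝ) * (1 + e)) = u ^ r * u ^ (r * e) := by
      rw [mul_add, mul_one, Real.rpow_add hu0, Real.rpow_natCast]
    have g4 : u ^ ((r : ℝ) * e) ≤ c / (4 * t) := by
      have h10 := Real.rpow_le_rpow hu0.le hum3 (by positivity : 0 ≤ (r : ℝ) * e)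
      rwa [← Real.rpow_mul (by positivity), one_div_mul_cancel (by positivity),
        Real.rpow_one] at h10
    rw [g3]
    have g5 : 0 ≤ u ^ ((r : ℝ) * e) := (Real.rpow_pos_of_pos hu0 _).le
    calc 4 * B * (u ^ r * u ^ ((r : ℝ) * e)) = 4 * (B * u ^ r) * u ^ ((r : ℝ) * e) := by ring
      _ ≤ 4 * t * u ^ ((r : ℝ) * e) := by
          apply mul_le_mul_of_nonneg_right _ g5
          linarith
      _ ≤ 4 * t * (c / (4 * t)) := mul_le_mul_of_nonneg_left g4 (by positivity)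
      _ = c := by field_simp
  all_goals
    obtain ⟨W, hWd⟩ : ∃ W : ℝ, W = cst r t * (Z / Real.log Z) ^ ((r : ℝ) / (r + 1)) := ⟨_, rfl⟩
    have hW0 : 0 ≤ W := by
      rw [hWd, ← hLd]
      unfold cst
      positivity
    have hWp : W ^ (r + 1) = (((r : ℝ) + 1) / r) ^ (2 * r + 1) * t * (Z / L) ^ r := by
      rw [hWd, ← hLd, mul_pow, cst_pow r t hr ht]
      congr 1
      rw [← Real.rpow_natCast _ (r + 1), ← Real.rpow_mul (by positivity)]
      have : (r : ℝ) / (r + 1) * ((r + 1 : ℕ) : ℝ) = r := by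
        push_cast
        field_simp
      rw [this, Real.rpow_natCast]
    have hBp : ((r + 1) * B) ^ (r + 1) = a ^ r * W ^ (r + 1) := by
      have g1 : ((r : ℝ) + 1) * B = (r + 1) / r * (u * (a * Z)) := by
        rw [huB]
        field_simp
      rw [g1, hWp, mul_pow, mul_pow]
      have g2 : u ^ (r + 1) * (a * Z) ^ (r + 1) * (r * l) ^ r = t * (a * Z) ^ r := by
        rw [← hid]
        ring
      have g3 : (r * l : ℝ) ^ r = (r / (r + 1)) ^ r * L ^ r := by
        rw [← mul_pow, hld]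
        congr 1
        ring
      rw [g3] at g2
      have g4 : (((r : ℝ) + 1) / r) ^ r * (r / (r + 1)) ^ r = 1 := by
        rw [← mul_pow, div_mul_div_comm, mul_comm ((r : ℝ) + 1), div_self (by positivity), one_pow]
      have hLr : L ^ r ≠ 0 := (pow_pos hL0 r).ne'
      have g5 : u ^ (r + 1) * (a * Z) ^ (r + 1) * L ^ r = (((r : ℝ) + 1) / r) ^ r *
          (t * (a * Z) ^ r) := by
        rw [← g2]
        calc u ^ (r + 1) * (a * Z) ^ (r + 1) * L ^ r = ((((r : ℝ) + 1) / r) ^ r *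
            (r / (r + 1)) ^ r) * (u ^ (r + 1) * (a * Z) ^ (r + 1) * L ^ r) := by rw [g4, one_mul]
          _ = _ := by ring
      have g6 : u ^ (r + 1) * (a * Z) ^ (r + 1) = (((r : ℝ) + 1) / r) ^ r *
          (t * (a * Z) ^ r) / L ^ r := by
        rw [eq_div_iff hLr, g5]
      rw [g6]
      generalize ((r : ℝ) + 1) / r = q
      rw [div_pow Z, mul_pow a Z, show 2 * r + 1 = (r + 1) + r by ring, pow_add q (r + 1) r]
      ring
    first
    | rw [← hWd]
      refine le_of_pow_le_pow_left₀ (n := r + 1) (by omega) (by positivity) ?_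
      rw [hBp, mul_pow]
      apply mul_le_mul_of_nonneg_right _ (by positivity)
      exact pow_le_pow_of_le_one ha.le ha1 (by omega)
    | rw [← hWd]
      refine le_of_pow_le_pow_left₀ (n := r + 1) (by omega) hW0 ?_
      rw [hBp]
      exact mul_le_of_le_one_left (by positivity) (pow_le_one₀ ha.le ha1)

end Pool.Agent.N878.NTW
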