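import Pool.Agent.N878.BR.ThreeB

/-!
# BR/THREE: the three point functions vanish
-/

set_option autoImplicit false
set_option linter.all false

open MeasureTheory Filter Topology ProbabilityTheory
open scoped ContDiff RealInnerProductSpace

namespace Pool.Agent.N878.BR

open Pool.Agent.N661.BR (cov parallel MW IsStationary shift meas_eval meas_shift Four S_THREE gauss)

theorem ht442' : ENNReal.HolderTriple 4 4 2 where
  inv_add_inv_eq_inv := by
    have h4 : (4 : ENNReal)⁻¹ = 2⁻¹ * 2⁻¹ := by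
      rw [← ENNReal.mul_inv (by simp) (by simp)]
      norm_num
    rw [h4, ← two_mul, ← mul_assoc, ENNReal.mul_inv_cancel (by norm_num) (by norm_num), one_mul]

section

variable {μ : Measure MW} [IsProbabilityMeasure μ]

theorem csq {X Y : MW → ℝ} (hX : MemLp X 2 μ) (hY : MemLp Y 2 μ) :
    (∫ f, X f * Y f ∂μ) ^ 2 ≤ (∫ f, X f ^ 2 ∂μ) * ∫ f, Y f ^ 2 ∂μ := by
  have h1 : ∀ t : ℝ, 0 ≤ (∫ f, X f ^ 2 ∂μ) * (t * t) + (2 * ∫ f, X f * Y f ∂μ) * t +
      ∫ f, Y f ^ 2 ∂μ := by
    intro t
    have h2 : 0 ≤ ∫ f, (t * X f + Y f) ^ 2 ∂μ := integral_nonneg fun f => sq_nonneg _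
    have h3 : ∀ f, (t * X f + Y f) ^ 2 = t * t * X f ^ 2 + 2 * t * (X f * Y f) + Y f ^ 2 :=
      fun f => by ring
    simp_rw [h3] at h2
    have i1 : Integrable (fun f => t * t * X f ^ 2) μ := hX.integrable_sq.const_mul _
    have i2 : Integrable (fun f => 2 * t * (X f * Y f)) μ := (hX.integrable_mul hY).const_mul _
    have i3 : Integrable (fun f => Y f ^ 2) μ := hY.integrable_sq
    have i12 : Integrable (fun f => t * t * X f ^ 2 + 2 * t * (X f * Y f)) μ := i1.add i2
    rw [integral_add i12 i3, integral_add i1 i2, integral_const_mul, integral_const_mul] at h2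
    linarith
  have h2 := discrim_le_zero h1
  rw [discrim] at h2
  linarith

/-- **BR/THREE** -/
theorem THREE : S_THREE := by
  intro μ hμ hst m ν hν hF hpar a b c
  obtain ⟨s, w, g1, g2, g3, g4⟩ := sw2
  have hg : Good s w := ⟨g1, g2, g3, g4⟩
  have hm4 := hF.memLp
  have hm2 : ∀ x, MemLp (fun f : MW => f x) 2 μ := fun x => (hm4 x).mono_exponent (by norm_num)
  have hp2 : ∀ x y, MemLp (fun f : MW => f x * f y) 2 μ := fun x y => by
    haveI := ht442'
    exact (hm4 y).mul' (hm4 x)
  have hint : ∀ x y z, Integrable (fun f : MW => f x * f y * f z) μ := fun x y z =>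
    (hp2 x y).integrable_mul (hm2 z)
  have hst' : ∀ x y z t : ℂ, ∫ f : MW, f x * f y * f z ∂μ =
      ∫ f : MW, f (x - t) * f (y - t) * f (z - t) ∂μ := by
    intro x y z t
    have h1 : ∫ f : MW, f x * f y * f z ∂μ = ∫ f : MW, f x * f y * f z ∂(μ.map (shift (-t))) := by
      rw [hst (-t)]
    have h2 : Measurable (fun f : MW => f x * f y * f z) :=
      ((meas_eval x).mul (meas_eval y)).mul (meas_eval z)
    rw [h1, integral_map (meas_shift (-t)).aemeasurable h2.aestronglyMeasurable]
    rfl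
  -- the two remainders
  let R : ℕ → MW → ℝ := fun n f => ∑ i ∈ s n, w n i * f (c + pnt i) - f c
  let S : ℕ → MW → ℝ := fun n f => ∑ i ∈ s n, w n i * (f (a - pnt i) * f (b - pnt i))
  have hR : ∀ n, MemLp (R n) 2 μ := fun n =>
    (memLp_finsetSum _ fun i _ => (hm2 _).const_mul _).sub (hm2 c)
  have hS : ∀ n, MemLp (S n) 2 μ := fun n =>
    memLp_finsetSum _ fun i _ => (hp2 _ _).const_mul _
  have hT : ∀ n, ∫ f : MW, f a * f b * f c ∂μ =
      ∫ f : MW, S n f * f c ∂μ - ∫ f : MW, (f a * f b) * R n f ∂μ := by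
    intro n
    have h1 : ∫ f : MW, S n f * f c ∂μ =
        ∑ i ∈ s n, w n i * ∫ f : MW, f (a - pnt i) * f (b - pnt i) * f c ∂μ := by
      have h2 : ∀ f : MW, S n f * f c =
          ∑ i ∈ s n, w n i * (f (a - pnt i) * f (b - pnt i) * f c) := by
        intro f
        simp only [S]
        rw [Finset.sum_mul]
        exact Finset.sum_congr rfl fun i _ => by ring
      simp_rw [h2]
      rw [integral_finsetSum _ fun i _ => (hint _ _ _).const_mul _]
      exact Finset.sum_congr rfl fun i _ => integral_const_mul _ _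
    have h3 : ∫ f : MW, (f a * f b) * R n f ∂μ =
        ∑ i ∈ s n, w n i * (∫ f : MW, f a * f b * f (c + pnt i) ∂μ) -
          ∫ f : MW, f a * f b * f c ∂μ := by
      have h2 : ∀ f : MW, (f a * f b) * R n f =
          ∑ i ∈ s n, w n i * (f a * f b * f (c + pnt i)) - f a * f b * f c := by
        intro f
        simp only [R]
        rw [mul_sub, Finset.mul_sum]
        congr 1
        exact Finset.sum_congr rfl fun i _ => by ring
      simp_rw [h2]
      rw [integral_sub (integrable_finsetSum _ fun i _ => (hint _ _ _).const_mul _) (hint _ _ _),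
        integral_finsetSum _ fun i _ => (hint _ _ _).const_mul _]
      congr 1
      exact Finset.sum_congr rfl fun i _ => integral_const_mul _ _
    rw [h1, h3]
    have h4 : ∀ i, ∫ f : MW, f a * f b * f (c + pnt i) ∂μ =
        ∫ f : MW, f (a - pnt i) * f (b - pnt i) * f c ∂μ := by
      intro i
      rw [hst' a b (c + pnt i) (pnt i), add_sub_cancel_right]
    simp_rw [h4]
    ring
  -- second moments
  have hcov0 : cov ν 0 = 1 := by
    rw [cov_ev]
    have : ∀ α, Real.cos (ip (ev α) 0) = 1 := fun α => by simp [ip]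
    simp_rw [this]
    simp
  have hKc : ∀ n, Continuous (fun α => KK (s n) (w n) (ev α)) := fun n =>
    (KK_cont _ _).comp ev_cont
  have hKb : ∀ n α, |KK (s n) (w n) (ev α)| ≤ 2 := fun n α =>
    hg.bdd n _ (by rw [ev_norm]; norm_num)
  have hci : ∀ u : ℂ, Integrable (fun α => Real.cos (ip (ev α) u)) ν := fun u =>
    intc (Real.continuous_cos.comp (ipev_cont u)) 1 fun α => Real.abs_cos_le_one _
  have hcov1 : ∀ n, ∑ i ∈ s n, w n i * cov ν (pnt i) = ∫ α, KK (s n) (w n) (ev α) ∂ν := by
    intro n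
    simp_rw [cov_ev, ← integral_const_mul]
    rw [← integral_finsetSum _ fun i _ => (hci _).const_mul _]
    rfl
  have hcov2 : ∀ n, ∑ i ∈ s n, ∑ j ∈ s n, w n i * w n j * cov ν (pnt j - pnt i) =
      ∫ α, KK (s n) (w n) (ev α) ^ 2 ∂ν := by
    intro n
    simp_rw [cov_ev, ← integral_const_mul]
    refine (sum2 (s n) (fun i j α => w n i * w n j * Real.cos (ip (ev α) (pnt j - pnt i)))
      (fun i j => (hci _).const_mul _)).trans ?_
    refine integral_congr_ae (Eventually.of_forall fun α => ?_)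
    have h1 := sumcos (hg.sin n) (ev α) 0
    simp only [zero_add, Real.cos_zero, one_mul] at h1
    exact h1
  have hR2 : ∀ n, ∫ f, R n f ^ 2 ∂μ = m * ∫ α, (KK (s n) (w n) (ev α) - 1) ^ 2 ∂ν := by
    intro n
    have h1 : ∀ f : MW, R n f ^ 2 = ∑ i ∈ s n, ∑ j ∈ s n, w n i * w n j *
        (f (c + pnt j) * f (c + pnt i)) - 2 * ∑ i ∈ s n, w n i * (f (c + pnt i) * f c) +
        f c * f c := by
      intro f
      simp only [R]
      have h2 : (∑ i ∈ s n, w n i * f (c + pnt i)) * (∑ i ∈ s n, w n i * f (c + pnt i)) =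
          ∑ i ∈ s n, ∑ j ∈ s n, w n i * w n j * (f (c + pnt j) * f (c + pnt i)) := by
        rw [Finset.sum_mul_sum]
        exact Finset.sum_congr rfl fun i _ => Finset.sum_congr rfl fun j _ => by ring
      have h3 : ∑ i ∈ s n, w n i * (f (c + pnt i) * f c) =
          (∑ i ∈ s n, w n i * f (c + pnt i)) * f c := by
        rw [Finset.sum_mul]
        exact Finset.sum_congr rfl fun i _ => by ring
      rw [← h2, h3]
      ring
    have i1 : ∀ x y, Integrable (fun f : MW => f x * f y) μ := fun x y =>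
      (hm2 x).integrable_mul (hm2 y)
    have i2 : Integrable (fun f : MW => ∑ i ∈ s n, ∑ j ∈ s n, w n i * w n j *
        (f (c + pnt j) * f (c + pnt i))) μ :=
      integrable_finsetSum _ fun i _ => integrable_finsetSum _ fun j _ => (i1 _ _).const_mul _
    have i3 : Integrable (fun f : MW => 2 * ∑ i ∈ s n, w n i * (f (c + pnt i) * f c)) μ :=
      (integrable_finsetSum _ fun i _ => (i1 _ _).const_mul _).const_mul _
    simp_rw [h1]
    have i23 : Integrable (fun f : MW => ∑ i ∈ s n, ∑ j ∈ s n, w n i * w n j *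
        (f (c + pnt j) * f (c + pnt i)) - 2 * ∑ i ∈ s n, w n i * (f (c + pnt i) * f c)) μ :=
      i2.sub i3
    rw [integral_add i23 (i1 c c), integral_sub i2 i3, integral_const_mul, hF.two, sub_self,
      hcov0, ← sum2 (s n) (fun i j (f : MW) => w n i * w n j *
        (f (c + pnt j) * f (c + pnt i))) (fun i j => (i1 _ _).const_mul _),
      integral_finsetSum _ fun i _ => (i1 _ _).const_mul _]
    simp_rw [integral_const_mul, hF.two, add_sub_add_left_eq_sub, add_sub_cancel_left]
    have e1 : ∑ i ∈ s n, ∑ j ∈ s n, w n i * w n j * (m * cov ν (pnt j - pnt i)) =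
        m * ∫ α, KK (s n) (w n) (ev α) ^ 2 ∂ν := by
      rw [← hcov2, Finset.mul_sum]
      refine Finset.sum_congr rfl fun i _ => ?_
      rw [Finset.mul_sum]
      exact Finset.sum_congr rfl fun j _ => by ring
    have e2 : ∑ i ∈ s n, w n i * (m * cov ν (pnt i)) = m * ∫ α, KK (s n) (w n) (ev α) ∂ν := by
      rw [← hcov1, Finset.mul_sum]
      exact Finset.sum_congr rfl fun i _ => by ring
    have e3 : ∫ α, (KK (s n) (w n) (ev α) - 1) ^ 2 ∂ν =
        ∫ α, KK (s n) (w n) (ev α) ^ 2 ∂ν - 2 * ∫ α, KK (s n) (w n) (ev α) ∂ν + 1 := by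
      have h4 : ∀ α, (KK (s n) (w n) (ev α) - 1) ^ 2 =
          KK (s n) (w n) (ev α) ^ 2 - 2 * KK (s n) (w n) (ev α) + 1 := fun α => by ring
      simp_rw [h4]
      have j1 : Integrable (fun α => KK (s n) (w n) (ev α) ^ 2) ν :=
        intc ((hKc n).pow 2) 4 fun α => by
          rw [abs_of_nonneg (sq_nonneg _)]
          have := abs_le.1 (hKb n α)
          nlinarith [this.1, this.2]
      have j2 : Integrable (fun α => 2 * KK (s n) (w n) (ev α)) ν :=
        (intc (hKc n) 2 (hKb n)).const_mul 2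
      have j12 : Integrable (fun α => KK (s n) (w n) (ev α) ^ 2 -
          2 * KK (s n) (w n) (ev α)) ν := j1.sub j2
      rw [integral_add j12 (integrable_const _), integral_sub j1 j2, integral_const_mul]
      simp
    rw [e1, e2, e3]
    ring
  have hS2 : ∀ n, ∫ f, S n f ^ 2 ∂μ = m ^ 2 * (cov ν (a - b) ^ 2 * KK (s n) (w n) 0 ^ 2 +
      ∑ i ∈ s n, ∑ j ∈ s n, w n i * w n j *
        (cov ν (0 + (pnt j - pnt i)) * cov ν (0 + (pnt j - pnt i))) +
      ∑ i ∈ s n, ∑ j ∈ s n, w n i * w n j *
        (cov ν ((a - b) + (pnt j - pnt i)) * cov ν ((b - a) + (pnt j - pnt i)))) := by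
    intro n
    have h1 : ∀ f : MW, S n f ^ 2 = ∑ i ∈ s n, ∑ j ∈ s n, w n i * w n j *
        ((f (a - pnt i) * f (b - pnt i)) * (f (a - pnt j) * f (b - pnt j))) := by
      intro f
      simp only [S]
      rw [sq, Finset.sum_mul_sum]
      exact Finset.sum_congr rfl fun i _ => Finset.sum_congr rfl fun j _ => by ring
    have i1 : ∀ x y z t, Integrable (fun f : MW => (f x * f y) * (f z * f t)) μ :=
      fun x y z t => (hp2 x y).integrable_mul (hp2 z t)
    have h2 : ∀ x y z t : ℂ, ∫ f : MW, (f x * f y) * (f z * f t) ∂μ =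
        m ^ 2 * (cov ν (x - y) * cov ν (z - t) + cov ν (x - z) * cov ν (y - t) +
          cov ν (x - t) * cov ν (y - z)) := by
      intro x y z t
      have h3 := hF.four ![x, y, z, t]
      unfold gauss at h3
      simp only [Fin.prod_univ_four] at h3
      have h4 : ∀ f : MW, f x * f y * (f z * f t) = f (![x, y, z, t] 0) * f (![x, y, z, t] 1) *
          f (![x, y, z, t] 2) * f (![x, y, z, t] 3) := by
        intro f
        show f x * f y * (f z * f t) = f x * f y * f z * f t
        ring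
      simp_rw [h4]
      exact h3
    simp_rw [h1]
    rw [← sum2 (s n) (fun i j (f : MW) => w n i * w n j *
        ((f (a - pnt i) * f (b - pnt i)) * (f (a - pnt j) * f (b - pnt j))))
        (fun i j => (i1 _ _ _ _).const_mul _)]
    simp_rw [integral_const_mul, h2]
    have hK0 : KK (s n) (w n) 0 = ∑ i ∈ s n, w n i := by
      unfold KK
      refine Finset.sum_congr rfl fun i _ => ?_
      have : ip 0 (pnt i) = 0 := by simp [ip]
      rw [this, Real.cos_zero, mul_one]
    have e0 : cov ν (a - b) ^ 2 * KK (s n) (w n) 0 ^ 2 =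
        ∑ i ∈ s n, ∑ j ∈ s n, w n i * w n j * (cov ν (a - b) * cov ν (a - b)) := by
      rw [hK0, sq (∑ i ∈ s n, w n i), Finset.sum_mul_sum, Finset.mul_sum]
      refine Finset.sum_congr rfl fun i _ => ?_
      rw [Finset.mul_sum]
      exact Finset.sum_congr rfl fun j _ => by ring
    rw [e0, ← Finset.sum_add_distrib, ← Finset.sum_add_distrib, Finset.mul_sum]
    refine Finset.sum_congr rfl fun i _ => ?_
    rw [← Finset.sum_add_distrib, ← Finset.sum_add_distrib, Finset.mul_sum]
    refine Finset.sum_congr rfl fun j _ => ?_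
    have q1 : a - pnt i - (b - pnt i) = a - b := by ring
    have q2 : a - pnt j - (b - pnt j) = a - b := by ring
    have q3 : a - pnt i - (a - pnt j) = 0 + (pnt j - pnt i) := by ring
    have q4 : b - pnt i - (b - pnt j) = 0 + (pnt j - pnt i) := by ring
    have q5 : a - pnt i - (b - pnt j) = (a - b) + (pnt j - pnt i) := by ring
    have q6 : b - pnt i - (a - pnt j) = (b - a) + (pnt j - pnt i) := by ring
    rw [q1, q2, q3, q4, q5, q6]
    ring
  have lR : Tendsto (fun n => ∫ f, R n f ^ 2 ∂μ) atTop (𝓝 0) := by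
    simp_rw [hR2]
    have := (one_lim (ν := ν) hg).const_mul m
    rwa [mul_zero] at this
  have lS : Tendsto (fun n => ∫ f, S n f ^ 2 ∂μ) atTop (𝓝 0) := by
    simp_rw [hS2]
    have l0 : Tendsto (fun n => KK (s n) (w n) 0) atTop (𝓝 0) :=
      hg.zero 0 (by simp) (by simp)
    have l1 := (((l0.pow 2).const_mul (cov ν (a - b) ^ 2)).add (HH_lim hpar hg 0 0)).add
      (HH_lim hpar hg (a - b) (b - a))
    have l2 := l1.const_mul (m ^ 2)
    have e : m ^ 2 * (cov ν (a - b) ^ 2 * 0 ^ 2 + 0 + 0) = 0 := by ring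
    rw [e] at l2
    exact l2
  have sqz : ∀ (x y : ℕ → ℝ) (C : ℝ), Tendsto y atTop (𝓝 0) → (∀ n, x n ^ 2 ≤ C * y n) →
      Tendsto x atTop (𝓝 0) := by
    intro x y C hy hx
    have h1 : Tendsto (fun n => x n ^ 2) atTop (𝓝 0) := by
      have := hy.const_mul C
      rw [mul_zero] at this
      exact squeeze_zero (fun n => sq_nonneg _) hx this
    have h2 := (Real.continuous_sqrt.tendsto 0).comp h1
    rw [Real.sqrt_zero] at h2
    refine (tendsto_zero_iff_abs_tendsto_zero _).2 (h2.congr fun n => ?_)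
    exact Real.sqrt_sq_eq_abs _
  have z1 := sqz (fun n => ∫ f : MW, S n f * f c ∂μ) _ (∫ f : MW, f c ^ 2 ∂μ) lS (fun n => by
    have := csq (hS n) (hm2 c)
    rwa [mul_comm] at this)
  have z2 := sqz (fun n => ∫ f : MW, (f a * f b) * R n f ∂μ) _
    (∫ f : MW, (f a * f b) ^ 2 ∂μ) lR (fun n => csq (hp2 a b) (hR n))
  have z3 := z1.sub z2
  rw [sub_zero] at z3
  exact tendsto_nhds_unique (tendsto_const_nhds.congr hT) z3

end

end Pool.Agent.N878.BR

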