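import Pool.Agent.N878.BR.BochC

/-!
# BR/BOCH: the spectral measure of a stationary wave
-/

set_option autoImplicit false
set_option linter.all false

open MeasureTheory Filter Topology ProbabilityTheory
open scoped ContDiff RealInnerProductSpace

namespace Pool.Agent.N878.BR

open Pool.Agent.W745.RW (lap dx dy TF)
open Pool.Agent.N661.BR
open Pool.Agent.H506R3.Mag (PSDFun bochner)

/-- the bump function supported in the ball of radius `1 / (n + 1)` -/
noncomputable def bmp (n : ℕ) : ContDiffBump (0 : ℂ) where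
  rIn := 1 / (2 * ((n : ℝ) + 1))
  rOut := 1 / ((n : ℝ) + 1)
  rIn_pos := by positivity
  rIn_lt_rOut := by
    have : (0 : ℝ) < (n : ℝ) + 1 := by positivity
    exact one_div_lt_one_div_of_lt this (by linarith)

theorem ip_abs (ξ y : ℂ) : |ip ξ y| ≤ ‖ξ‖ * ‖y‖ := by
  refine abs_le_of_sq_le_sq ?_ (by positivity)
  rw [mul_pow, ← Complex.normSq_eq_norm_sq, ← Complex.normSq_eq_norm_sq, Complex.normSq_apply,
    Complex.normSq_apply, ip]
  nlinarith [sq_nonneg (ξ.re * y.im - ξ.im * y.re)]

theorem bmp_pos (n : ℕ) (ξ : ℂ) (h : ‖ξ‖ ≤ (n : ℝ) + 1) :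
    0 < ∫ y, bmp n y * Real.cos (ip ξ y) := by
  have hn : (0 : ℝ) < (n : ℝ) + 1 := by positivity
  refine Continuous.integral_pos_of_hasCompactSupport_nonneg_nonzero (x := 0)
    ((bmp n).continuous.mul (Real.continuous_cos.comp (ip_cont ξ)))
    (bmp n).hasCompactSupport.mul_right ?_ ?_
  · intro y
    show 0 ≤ bmp n y * Real.cos (ip ξ y)
    by_cases hy : ‖y‖ < 1 / ((n : ℝ) + 1)
    · refine mul_nonneg (bmp n).nonneg ?_
      have h1 : |ip ξ y| ≤ 1 := by
        refine (ip_abs ξ y).trans ?_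
        have h2 : ‖ξ‖ * ‖y‖ ≤ ((n : ℝ) + 1) * (1 / ((n : ℝ) + 1)) :=
          mul_le_mul h hy.le (norm_nonneg _) hn.le
        rwa [mul_one_div_cancel hn.ne'] at h2
      have h2 := abs_le.1 h1
      have h3 := Real.pi_gt_three
      exact Real.cos_nonneg_of_mem_Icc ⟨by linarith [h2.1], by linarith [h2.2]⟩
    · rw [(bmp n).zero_of_le_dist (by
        rw [dist_zero_right]
        exact not_lt.1 hy), zero_mul]
  · have h1 : bmp n 0 = 1 := (bmp n).one_of_mem_closedBall
      (Metric.mem_closedBall_self (bmp n).rIn_pos.le)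
    have h2 : ip ξ 0 = 0 := by simp [ip]
    show bmp n 0 * Real.cos (ip ξ 0) ≠ 0
    rw [h1, h2, Real.cos_zero, mul_one]
    exact one_ne_zero

/-- **BR/BOCH** -/
theorem BOCH : S_BOCH := by
  intro μ hμ hst hi
  rcases (cf_nonneg hst).eq_or_lt with hm0 | hm0
  · refine ⟨0, Measure.dirac 0, inferInstance, le_refl _, fun w w' => ?_⟩
    have h1 := cf_abs hst hi (w - w')
    rw [← hm0] at h1
    rw [cf_eq hst, abs_nonpos_iff.1 h1, zero_mul]
  set m := cf μ 0 with hm
  let G : ℂ → ℝ := fun x => cf μ x / m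
  have hGp : PSDFun G := by
    intro s w
    have h1 := div_nonneg (cf_psd hst hi s w) hm0.le
    rw [Finset.sum_div] at h1
    refine h1.trans_eq (Finset.sum_congr rfl fun x _ => ?_)
    rw [Finset.sum_div]
    exact Finset.sum_congr rfl fun y _ => mul_div_assoc _ _ _
  have hGc : Continuous G := (cf_cont hst hi).div_const _
  have hGb : ∀ x, |G x| ≤ 1 := fun x => by
    simp only [G]
    rw [abs_div, abs_of_pos hm0, div_le_one hm0]
    exact cf_abs hst hi x
  have hGe : ∀ x, G (-x) = G x := fun x => by simp only [G]; rw [cf_even hst]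
  have hG0 : G 0 = 1 := div_self hm0.ne'
  obtain ⟨P, hP, hPc⟩ := bochner_bdd hGp hGc hGb hGe hG0
  have hGcos : ∀ x, G x = ∫ ξ, Real.cos (ip ξ x) ∂P := by
    intro x
    have h1 := congrArg Complex.re (hPc x)
    rw [Complex.ofReal_re, charFun_apply, ← Complex.reCLM_apply,
      ← ContinuousLinearMap.integral_comp_comm] at h1
    · rw [← h1]
      refine integral_congr_ae (Eventually.of_forall fun ξ => ?_)
      show Complex.re (Complex.exp (((inner ℝ ξ x : ℝ) : ℂ) * Complex.I)) = Real.cos (ip ξ x)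
      rw [Complex.exp_ofReal_mul_I_re]
      congr 1
      rw [Complex.inner]
      simp only [ip, Complex.mul_re, Complex.conj_re, Complex.conj_im]
      ring
    · refine Integrable.of_bound (by fun_prop) 1 (Filter.Eventually.of_forall fun t => ?_)
      rw [Complex.norm_exp_ofReal_mul_I]
  -- the support of the spectral measure
  have hsupp : ∀ᵐ ξ ∂P, ‖ξ‖ = 1 := by
    have h1 : ∀ n : ℕ, ∀ᵐ ξ ∂P, (1 - ‖ξ‖ ^ 2) * ∫ y, bmp n y * Real.cos (ip ξ y) = 0 := by
      intro n
      have hc : ContDiff ℝ ∞ (bmp n) := (bmp n).contDiff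
      have h2 := orth (P := P) (tf_cont hc) (tf_cs (bmp n).hasCompactSupport) hGcos (fun z => by
        have h3 := cf_weak hst hi hc (bmp n).hasCompactSupport z
        simp only [G]
        simp_rw [← mul_div_assoc]
        rw [integral_div, h3, zero_div])
      filter_upwards [h2] with ξ hξ
      rw [← tf_cos hc (bmp n).hasCompactSupport]
      exact hξ
    filter_upwards [ae_all_iff.2 h1] with ξ hξ
    obtain ⟨n, hn⟩ := exists_nat_ge ‖ξ‖
    have h2 := hξ n
    have h3 := bmp_pos n ξ (by linarith)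
    rcases mul_eq_zero.1 h2 with h4 | h4
    · have h5 : ‖ξ‖ ^ 2 = 1 := by linarith
      exact (pow_eq_one_iff_of_nonneg (norm_nonneg _) two_ne_zero).1 h5
    · exact absurd h4 h3.ne'
  refine ⟨m, P.map Complex.arg, Measure.isProbabilityMeasure_map
    Complex.measurable_arg.aemeasurable, hm0.le, fun w w' => ?_⟩
  rw [cf_eq hst]
  have h1 : cf μ (w - w') = m * G (w - w') := by
    simp only [G]
    field_simp
  rw [h1, hGcos]
  congr 1
  generalize w - w' = x
  rw [cov, integral_map Complex.measurable_arg.aemeasurable (by fun_prop)]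
  refine integral_congr_ae ?_
  filter_upwards [hsupp] with ξ hξ
  have hne : ξ ≠ 0 := by
    intro h
    rw [h, norm_zero] at hξ
    exact zero_ne_one hξ
  show Real.cos (ip ξ x) = _
  rw [Complex.cos_arg hne, Complex.sin_arg, hξ, div_one, div_one, ip]
  congr 1
  ring

end Pool.Agent.N878.BR

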