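import Pool.Agent.N576.MX.Defs
import Pool.Agent.N576.MK.A9

/-!
# Project MX, part LIGHT: few light exceptional words
-/

set_option autoImplicit false

namespace Pool.Agent.N878.MX

open Pool.Agent.H499R2 Pool.Agent.TH880.MK Pool.Agent.N576.MK Pool.Agent.N576.MX

/-- the bounds for `tau` -/
lemma tau_le {H : ℕ} (hH : 2 ≤ H) (r : ℕ) (hr : 1 ≤ r) :
    tau H r ≤ ⌈(H : ℝ) ^ (91 / 100 : ℝ)⌉₊ ∧
      tau H r * r ≤ ⌈(H : ℝ) ^ (99 / 100 : ℝ)⌉₊ + ⌈(H : ℝ) ^ (8 / 100 : ℝ)⌉₊ * r := by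
  have hH1 : (1 : ℝ) ≤ H := by exact_mod_cast (show 1 ≤ H by omega)
  have hH0 : (0 : ℝ) < H := by linarith
  have hr1 : (1 : ℝ) ≤ r := by exact_mod_cast hr
  have hr0 : (0 : ℝ) < r := by linarith
  have p8 : (0 : ℝ) < (H : ℝ) ^ (8 / 100 : ℝ) := by positivity
  have p91 : (0 : ℝ) < (H : ℝ) ^ (91 / 100 : ℝ) := by positivity
  have p99 : (0 : ℝ) < (H : ℝ) ^ (99 / 100 : ℝ) := by positivity
  have c91 : (H : ℝ) ^ (91 / 100 : ℝ) ≤ ⌈(H : ℝ) ^ (91 / 100 : ℝ)⌉₊ := Nat.le_ceil _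
  have c99 : (H : ℝ) ^ (99 / 100 : ℝ) ≤ ⌈(H : ℝ) ^ (99 / 100 : ℝ)⌉₊ := Nat.le_ceil _
  have m1 : (H : ℝ) ^ (91 / 100 : ℝ) ≤ (H : ℝ) ^ (99 / 100 : ℝ) :=
    Real.rpow_le_rpow_of_exponent_le hH1 (by norm_num)
  have m2 : (H : ℝ) ^ (8 / 100 : ℝ) ≤ (H : ℝ) ^ (91 / 100 : ℝ) :=
    Real.rpow_le_rpow_of_exponent_le hH1 (by norm_num)
  have hmul : (H : ℝ) ^ (91 / 100 : ℝ) * (H : ℝ) ^ (8 / 100 : ℝ) = (H : ℝ) ^ (99 / 100 : ℝ) := by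
    rw [← Real.rpow_add hH0]; norm_num
  unfold tau
  split_ifs with h1 h2
  · have e : ((⌊(H : ℝ) ^ (91 / 100 : ℝ) / r⌋₊ : ℕ) : ℝ) ≤ (H : ℝ) ^ (91 / 100 : ℝ) / r :=
      Nat.floor_le (by positivity)
    constructor
    · have : ((⌊(H : ℝ) ^ (91 / 100 : ℝ) / r⌋₊ : ℕ) : ℝ) ≤ (⌈(H : ℝ) ^ (91 / 100 : ℝ)⌉₊ : ℕ) := by
        refine e.trans (le_trans ?_ c91)
        exact div_le_self p91.le hr1
      exact_mod_cast this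
    · have h3 : ((⌊(H : ℝ) ^ (91 / 100 : ℝ) / r⌋₊ : ℕ) : ℝ) * r ≤
          (⌈(H : ℝ) ^ (99 / 100 : ℝ)⌉₊ : ℕ) := by
        rw [le_div_iff₀ hr0] at e
        linarith
      have h4 : ⌊(H : ℝ) ^ (91 / 100 : ℝ) / r⌋₊ * r ≤ ⌈(H : ℝ) ^ (99 / 100 : ℝ)⌉₊ := by
        exact_mod_cast h3
      exact h4.trans (Nat.le_add_right _ _)
  · rw [not_le] at h1
    have e : ((⌊(H : ℝ) ^ (99 / 100 : ℝ) / r⌋₊ : ℕ) : ℝ) ≤ (H : ℝ) ^ (99 / 100 : ℝ) / r :=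
      Nat.floor_le (by positivity)
    constructor
    · have : ((⌊(H : ℝ) ^ (99 / 100 : ℝ) / r⌋₊ : ℕ) : ℝ) ≤ (⌈(H : ℝ) ^ (91 / 100 : ℝ)⌉₊ : ℕ) := by
        refine e.trans (le_trans ?_ c91)
        rw [div_le_iff₀ hr0, ← hmul]
        exact mul_le_mul_of_nonneg_left h1.le p91.le
      exact_mod_cast this
    · have h3 : ((⌊(H : ℝ) ^ (99 / 100 : ℝ) / r⌋₊ : ℕ) : ℝ) * r ≤
          (⌈(H : ℝ) ^ (99 / 100 : ℝ)⌉₊ : ℕ) := by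
        rw [le_div_iff₀ hr0] at e
        linarith
      have h4 : ⌊(H : ℝ) ^ (99 / 100 : ℝ) / r⌋₊ * r ≤ ⌈(H : ℝ) ^ (99 / 100 : ℝ)⌉₊ := by
        exact_mod_cast h3
      exact h4.trans (Nat.le_add_right _ _)
  · have e : ((⌊(H : ℝ) ^ (8 / 100 : ℝ)⌋₊ : ℕ) : ℝ) ≤ (H : ℝ) ^ (8 / 100 : ℝ) :=
      Nat.floor_le p8.le
    constructor
    · have : ((⌊(H : ℝ) ^ (8 / 100 : ℝ)⌋₊ : ℕ) : ℝ) ≤ (⌈(H : ℝ) ^ (91 / 100 : ℝ)⌉₊ : ℕ) := by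
        linarith
      exact_mod_cast this
    · have h5 : ⌊(H : ℝ) ^ (8 / 100 : ℝ)⌋₊ ≤ ⌈(H : ℝ) ^ (8 / 100 : ℝ)⌉₊ := Nat.floor_le_ceil _
      exact (Nat.mul_le_mul_right r h5).trans (Nat.le_add_left _ _)

theorem light_of (h : LIGHTCLS) : LIGHT := by
  obtain ⟨C, hC, hcount⟩ := count_eps (1 / 400) (by norm_num) 2 4708 (by norm_num)
  refine ⟨C, hC, fun H Z hH hZ => ?_⟩
  have hH1 : (1 : ℝ) ≤ H := by exact_mod_cast hH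
  have hH0 : (0 : ℝ) < H := by linarith
  rcases lt_or_ge H 2 with h2 | h2
  · rw [empty_of_one h2 Z (fun l hl => (hZ l hl).1.1)]
    simp only [Finset.card_empty, Nat.cast_zero]
    positivity
  obtain ⟨-, -, -, f4, f5, f6, f7⟩ := rh_facts h2
  have hl := lm_two (show 1 ≤ H by omega)
  have hl0 : (0 : ℝ) ≤ lm H := by linarith
  have hs1 : (1 : ℝ) ≤ s0 H := by exact_mod_cast (show 1 ≤ s0 H by omega)
  have hlog := Real.log_nonneg hs1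
  have hcls := h H (s0 H) (tau H) ⌈(H : ℝ) ^ (91 / 100 : ℝ)⌉₊ ⌈(H : ℝ) ^ (99 / 100 : ℝ)⌉₊
    ⌈(H : ℝ) ^ (8 / 100 : ℝ)⌉₊ h2 f4 (fun r hr => tau_le h2 r hr)
  have q8 : (1 : ℝ) ≤ (H : ℝ) ^ (8 / 100 : ℝ) := Real.one_le_rpow hH1 (by norm_num)
  have q91 : (1 : ℝ) ≤ (H : ℝ) ^ (91 / 100 : ℝ) := Real.one_le_rpow hH1 (by norm_num)
  have q99 : (1 : ℝ) ≤ (H : ℝ) ^ (99 / 100 : ℝ) := Real.one_le_rpow hH1 (by norm_num)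
  have hmul : (H : ℝ) ^ (8 / 100 : ℝ) * (H : ℝ) ^ (91 / 100 : ℝ) = (H : ℝ) ^ (99 / 100 : ℝ) := by
    rw [← Real.rpow_add hH0]; norm_num
  have u8 : ((⌈(H : ℝ) ^ (8 / 100 : ℝ)⌉₊ : ℕ) : ℝ) ≤ 2 * (H : ℝ) ^ (8 / 100 : ℝ) := by
    have := Nat.ceil_lt_add_one (show (0 : ℝ) ≤ (H : ℝ) ^ (8 / 100 : ℝ) by linarith)
    linarith
  have u91 : ((⌈(H : ℝ) ^ (91 / 100 : ℝ)⌉₊ : ℕ) : ℝ) ≤ 2 * (H : ℝ) ^ (91 / 100 : ℝ) := by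
    have := Nat.ceil_lt_add_one (show (0 : ℝ) ≤ (H : ℝ) ^ (91 / 100 : ℝ) by linarith)
    linarith
  have u99 : ((⌈(H : ℝ) ^ (99 / 100 : ℝ)⌉₊ : ℕ) : ℝ) ≤ 2 * (H : ℝ) ^ (99 / 100 : ℝ) := by
    have := Nat.ceil_lt_add_one (show (0 : ℝ) ≤ (H : ℝ) ^ (99 / 100 : ℝ) by linarith)
    linarith
  have hLa : ((2 * Nat.log 2 (4 * s0 H) + 2 : ℕ) : ℝ) ≤ 14 * lm H := by
    have e1 : Nat.log 2 (4 * s0 H) = Nat.log 2 (2 * s0 H) + 1 := by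
      rw [show 4 * s0 H = (2 * s0 H) * 2 by ring]
      exact Nat.log_mul_base (by norm_num) (by omega)
    rw [e1]
    push_cast
    linarith
  set La : ℕ := 2 * Nat.log 2 (4 * s0 H) + 2 with hLadef
  set X0 : ℕ := ⌈(H : ℝ) ^ (91 / 100 : ℝ)⌉₊
  set X1 : ℕ := ⌈(H : ℝ) ^ (99 / 100 : ℝ)⌉₊
  set Y : ℕ := ⌈(H : ℝ) ^ (8 / 100 : ℝ)⌉₊
  set a := (H : ℝ) ^ (8 / 100 : ℝ)
  set b := (H : ℝ) ^ (91 / 100 : ℝ)
  set c := (H : ℝ) ^ (99 / 100 : ℝ)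
  have hLa0 : (0 : ℝ) ≤ La := Nat.cast_nonneg _
  have w1 : (La : ℝ) * X1 * (4 * Real.log (s0 H)) ≤ 336 * (lm H ^ 2 * c) := by
    calc (La : ℝ) * X1 * (4 * Real.log (s0 H)) ≤ (14 * lm H) * (2 * c) * (4 * (3 * lm H)) := by
          apply mul_le_mul _ (by linarith) (by positivity) (by positivity)
          exact mul_le_mul hLa u99 (Nat.cast_nonneg _) (by positivity)
      _ = _ := by ring
  have w2 : ((La * Y + 1 : ℕ) : ℝ) ≤ 29 * (lm H * a) := by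
    push_cast
    have e1 : (La : ℝ) * Y ≤ (14 * lm H) * (2 * a) :=
      mul_le_mul hLa u8 (Nat.cast_nonneg _) (by positivity)
    have e2 : 1 ≤ lm H * a := by nlinarith
    linarith
  have w3 : ((La * X0 + 1 : ℕ) : ℝ) ≤ 29 * (lm H * b) := by
    push_cast
    have e1 : (La : ℝ) * X0 ≤ (14 * lm H) * (2 * b) :=
      mul_le_mul hLa u91 (Nat.cast_nonneg _) (by positivity)
    have e2 : 1 ≤ lm H * b := by nlinarith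
    linarith
  have w4 : ((La * Y + 1 : ℕ) : ℝ) * ((La * X0 + 1 : ℕ) : ℝ) ≤ 841 * (lm H ^ 2 * c) := by
    calc ((La * Y + 1 : ℕ) : ℝ) * ((La * X0 + 1 : ℕ) : ℝ) ≤ (29 * (lm H * a)) * (29 * (lm H * b)) :=
          mul_le_mul w2 w3 (Nat.cast_nonneg _) (by positivity)
      _ = 841 * (lm H ^ 2 * (a * b)) := by ring
      _ = _ := by rw [hmul]
  have h1 := hcount H h2 (Lt (tau H)) _ c _ q99 (by positivity) ?_ hcls Z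
    (fun l hl => ⟨(hZ l hl).2, (hZ l hl).1.1, (hZ l hl).1.2⟩)
  · refine h1.trans ?_
    rw [mul_assoc]
    refine mul_le_mul_of_nonneg_left ?_ hC.le
    rw [← Real.rpow_add hH0]
    exact Real.rpow_le_rpow_of_exponent_le hH1 (by norm_num)
  · have e : (4708 : ℝ) * lm H ^ 2 * c = 4 * (336 * (lm H ^ 2 * c) + 841 * (lm H ^ 2 * c)) := by ring
    rw [e]
    exact mul_le_mul_of_nonneg_left (add_le_add w1 w4) (by norm_num)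

end Pool.Agent.N878.MX
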