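import Pool.Agent.N979.CAP.Stm

/-! # CAP/LOW (helper878): polynomial lower bounds of two elliptic integrals -/

set_option autoImplicit false

open Real MeasureTheory Set Filter Topology Finset

noncomputable section

namespace Pool.Agent.N878.CAP_LOW

/-- the Taylor polynomial of `(1 - y) ^ (-1/2)` -/
def TT (y : ℝ) : ℝ := 1 + y / 2 + 3 / 8 * y ^ 2 + 5 / 16 * y ^ 3 + 35 / 128 * y ^ 4
  + 63 / 256 * y ^ 5 + 231 / 1024 * y ^ 6 + 429 / 2048 * y ^ 7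

lemma TT_sq {y : ℝ} (h1 : -1 ≤ y) : (1 - y) * TT y ^ 2 ≤ 1 := by
  have h2 : 1 - (1 - y) * TT y ^ 2 = y ^ 8 * ((6435 / 16384 + 715 / 4096 * y)
      + y ^ 2 * (3861 / 32768 + 2925 / 32768 * y) + y ^ 4 * (75075 / 1048576 + 31185 / 524288 * y)
      + y ^ 6 * (212355 / 4194304 + 184041 / 4194304 * y)) := by
    unfold TT
    ring
  have h3 : 0 ≤ (6435 / 16384 + 715 / 4096 * y) := by linarith
  have h4 : 0 ≤ (3861 / 32768 + 2925 / 32768 * y) := by linarith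
  have h5 : 0 ≤ (75075 / 1048576 + 31185 / 524288 * y) := by linarith
  have h6 : 0 ≤ (212355 / 4194304 + 184041 / 4194304 * y) := by linarith
  have h7 : 0 ≤ 1 - (1 - y) * TT y ^ 2 := by
    rw [h2]
    positivity
  linarith

lemma TT_le {y : ℝ} (h1 : -1 ≤ y) (h2 : y < 1) : TT y ≤ 1 / √(1 - y) := by
  have h3 : 0 < 1 - y := by linarith
  have h4 := Real.sqrt_pos.2 h3
  rw [le_div_iff₀ h4]
  have h5 : (TT y * √(1 - y)) ^ 2 ≤ 1 := by
    rw [mul_pow, Real.sq_sqrt h3.le, mul_comm]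
    exact TT_sq h1
  exact (abs_le_one_iff_mul_self_le_one.2 (by rw [← sq]; exact h5) |> (le_abs_self _).trans)

/-- the moments -/
lemma cosI (k : ℕ) : ∫ x in (0 : ℝ)..(2 * π), cos x ^ (k + 2) =
    (k + 1) / (k + 2) * ∫ x in (0 : ℝ)..(2 * π), cos x ^ k := by
  rw [integral_cos_pow]
  simp

lemma mom2 (k : ℕ) : ∫ x in (0 : ℝ)..π, cos (2 * x) ^ k =
    2⁻¹ * ∫ x in (0 : ℝ)..(2 * π), cos x ^ k := by
  have h := intervalIntegral.integral_comp_mul_left (a := 0) (b := π) (fun x => cos x ^ k)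
    (two_ne_zero (α := ℝ))
  rw [mul_zero, smul_eq_mul] at h
  exact h

lemma m0 : ∫ x in (0 : ℝ)..π, cos (2 * x) ^ 0 = π := by simp

lemma m1 : ∫ x in (0 : ℝ)..π, cos (2 * x) ^ 1 = 0 := by
  rw [mom2]
  simp

lemma mstep (k : ℕ) : ∫ x in (0 : ℝ)..π, cos (2 * x) ^ (k + 2) =
    (k + 1) / (k + 2) * ∫ x in (0 : ℝ)..π, cos (2 * x) ^ k := by
  rw [mom2, mom2, cosI]
  ring

lemma m2 : ∫ x in (0 : ℝ)..π, cos (2 * x) ^ 2 = π / 2 := by
  have h := mstep 0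
  rw [m0] at h
  norm_num at h ⊢
  linarith

lemma m3 : ∫ x in (0 : ℝ)..π, cos (2 * x) ^ 3 = 0 := by
  have h := mstep 1
  rw [m1, mul_zero] at h
  exact h

lemma m4 : ∫ x in (0 : ℝ)..π, cos (2 * x) ^ 4 = 3 * π / 8 := by
  have h := mstep 2
  rw [m2] at h
  norm_num at h ⊢
  linarith

lemma m5 : ∫ x in (0 : ℝ)..π, cos (2 * x) ^ 5 = 0 := by
  have h := mstep 3
  rw [m3, mul_zero] at h
  exact h

lemma m6 : ∫ x in (0 : ℝ)..π, cos (2 * x) ^ 6 = 5 * π / 16 := by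
  have h := mstep 4
  rw [m4] at h
  norm_num at h ⊢
  linarith

lemma m7 : ∫ x in (0 : ℝ)..π, cos (2 * x) ^ 7 = 0 := by
  have h := mstep 5
  rw [m5, mul_zero] at h
  exact h

lemma m8 : ∫ x in (0 : ℝ)..π, cos (2 * x) ^ 8 = 35 * π / 128 := by
  have h := mstep 6
  rw [m6] at h
  norm_num at h ⊢
  linarith

lemma int_poly (a : Fin 9 → ℝ) : ∫ x in (0 : ℝ)..π, ∑ k : Fin 9, a k * cos (2 * x) ^ (k : ℕ) =
    ∑ k : Fin 9, a k * ∫ x in (0 : ℝ)..π, cos (2 * x) ^ (k : ℕ) := by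
  rw [intervalIntegral.integral_finsetSum]
  · exact Finset.sum_congr rfl fun k _ => intervalIntegral.integral_const_mul _ _
  · intro k _
    apply Continuous.intervalIntegrable
    fun_prop

/-- the integrals of the polynomials -/
lemma int_T (q ε : ℝ) :
    ∫ x in (0 : ℝ)..π, (1 + ε * cos (2 * x)) / 2 * TT (q * cos (2 * x)) =
    π / 2 * (1 + ε * q / 4 + 3 / 16 * q ^ 2 + ε * (15 / 128) * q ^ 3
      + 105 / 1024 * q ^ 4 + ε * (315 / 4096) * q ^ 5 + 1155 / 16384 * q ^ 6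
      + ε * (15015 / 262144) * q ^ 7) := by
  have h := int_poly ![1 / 2, (q / 2 + ε) / 2, (3 / 8 * q ^ 2 + ε * (q / 2)) / 2,
    (5 / 16 * q ^ 3 + ε * (3 / 8 * q ^ 2)) / 2, (35 / 128 * q ^ 4 + ε * (5 / 16 * q ^ 3)) / 2,
    (63 / 256 * q ^ 5 + ε * (35 / 128 * q ^ 4)) / 2, (231 / 1024 * q ^ 6 + ε * (63 / 256 * q ^ 5)) / 2,
    (429 / 2048 * q ^ 7 + ε * (231 / 1024 * q ^ 6)) / 2, ε * (429 / 2048 * q ^ 7) / 2]
  have h1 : ∀ x : ℝ, (1 + ε * cos (2 * x)) / 2 * TT (q * cos (2 * x)) =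
      ∑ k : Fin 9, (![1 / 2, (q / 2 + ε) / 2, (3 / 8 * q ^ 2 + ε * (q / 2)) / 2,
    (5 / 16 * q ^ 3 + ε * (3 / 8 * q ^ 2)) / 2, (35 / 128 * q ^ 4 + ε * (5 / 16 * q ^ 3)) / 2,
    (63 / 256 * q ^ 5 + ε * (35 / 128 * q ^ 4)) / 2, (231 / 1024 * q ^ 6 + ε * (63 / 256 * q ^ 5)) / 2,
    (429 / 2048 * q ^ 7 + ε * (231 / 1024 * q ^ 6)) / 2, ε * (429 / 2048 * q ^ 7) / 2] k) *
        cos (2 * x) ^ (k : ℕ) := by
    intro x
    simp only [Fin.sum_univ_succ, Matrix.cons_val_zero, Matrix.cons_val_succ, Fin.val_zero,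
      Fin.val_succ, Finset.univ_eq_empty, Finset.sum_empty]
    unfold TT
    ring
  rw [intervalIntegral.integral_congr (fun x _ => h1 x), h]
  simp only [Fin.sum_univ_succ, Matrix.cons_val_zero, Matrix.cons_val_succ, Fin.val_zero,
      Fin.val_succ, Finset.univ_eq_empty, Finset.sum_empty]
  norm_num [m0, m1, m2, m3, m4, m5, m6, m7, m8]
  ring

lemma low_core (s q ε : ℝ) (hs0 : 0 ≤ s) (hs1 : s < 1) (hq : q = s ^ 2 / (2 - s ^ 2))
    (hε : ε = 1 ∨ ε = -1) :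
    √(1 + q) * (π / 2) * (1 + ε * q / 4 + 3 / 16 * q ^ 2 + ε * (15 / 128) * q ^ 3
      + 105 / 1024 * q ^ 4 + ε * (315 / 4096) * q ^ 5 + 1155 / 16384 * q ^ 6
      + ε * (15015 / 262144) * q ^ 7) ≤
    ∫ x in (0 : ℝ)..π, (1 + ε * cos (2 * x)) / 2 / √(1 - s ^ 2 * cos x ^ 2) := by
  have hu0 : 0 ≤ s ^ 2 := sq_nonneg s
  have hu1 : s ^ 2 < 1 := by nlinarith
  have h2u : 0 < 2 - s ^ 2 := by linarith
  have hq0 : 0 ≤ q := by
    rw [hq]
    positivity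
  have hq1 : q < 1 := by
    rw [hq, div_lt_one h2u]
    linarith
  have hq2 : (1 + q) * (1 - s ^ 2 / 2) = 1 := by
    rw [hq]
    field_simp
    ring
  rw [mul_assoc, ← int_T q ε, ← intervalIntegral.integral_const_mul]
  have hDD : ∀ x, 0 < 1 - s ^ 2 * cos x ^ 2 := by
    intro x
    have := cos_sq_le_one x
    nlinarith
  apply intervalIntegral.integral_mono_on pi_pos.le
  · apply Continuous.intervalIntegrable
    unfold TT
    fun_prop
  · apply Continuous.intervalIntegrable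
    apply Continuous.div (by fun_prop) (by fun_prop)
    intro x
    exact (Real.sqrt_pos.2 (hDD x)).ne'
  · intro x _
    have hC1 := neg_one_le_cos (2 * x)
    have hC2 := cos_le_one (2 * x)
    have h1 : 0 ≤ (1 + ε * cos (2 * x)) / 2 := by
      rcases hε with rfl | rfl <;> linarith
    have hy1 : -1 ≤ q * cos (2 * x) := by nlinarith
    have hy2 : q * cos (2 * x) < 1 := by nlinarith
    have h2 := TT_le hy1 hy2
    have h3 : 1 - s ^ 2 * cos x ^ 2 = (1 - s ^ 2 / 2) * (1 - q * cos (2 * x)) := by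
      rw [cos_two_mul, hq]
      field_simp
      ring
    have hpos1 : 0 < 1 - s ^ 2 / 2 := by linarith
    have hpos2 : 0 < 1 - q * cos (2 * x) := by linarith
    have h4 : 1 / √(1 - s ^ 2 * cos x ^ 2) = √(1 + q) * (1 / √(1 - q * cos (2 * x))) := by
      rw [h3, Real.sqrt_mul hpos1.le]
      have h5 : 1 + q = 1 / (1 - s ^ 2 / 2) := by
        rw [eq_div_iff hpos1.ne']
        exact hq2
      rw [h5, Real.sqrt_div zero_le_one, Real.sqrt_one]
      have h6 := (Real.sqrt_pos.2 hpos1).ne'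
      have h7 := (Real.sqrt_pos.2 hpos2).ne'
      field_simp
    calc √(1 + q) * ((1 + ε * cos (2 * x)) / 2 * TT (q * cos (2 * x)))
        = (1 + ε * cos (2 * x)) / 2 * (√(1 + q) * TT (q * cos (2 * x))) := by ring
      _ ≤ (1 + ε * cos (2 * x)) / 2 * (√(1 + q) * (1 / √(1 - q * cos (2 * x)))) := by
        gcongr
      _ = (1 + ε * cos (2 * x)) / 2 * (1 / √(1 - s ^ 2 * cos x ^ 2)) := by rw [h4]
      _ = _ := by ring

open Pool.Agent.N979.CAP in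
theorem main : S_LOW := by
  intro s hs0 hs1 q hq
  have h1 := low_core s q 1 hs0 hs1 hq (Or.inl rfl)
  have h2 := low_core s q (-1) hs0 hs1 hq (Or.inr rfl)
  have e1 : Ir s = ∫ x in (0 : ℝ)..π, (1 + 1 * cos (2 * x)) / 2 / √(1 - s ^ 2 * cos x ^ 2) := by
    unfold Ir DD
    refine intervalIntegral.integral_congr fun x _ => ?_
    have : cos x ^ 2 = (1 + 1 * cos (2 * x)) / 2 := by
      rw [cos_two_mul]
      ring
    show cos x ^ 2 / √(1 - s ^ 2 * cos x ^ 2) = (1 + 1 * cos (2 * x)) / 2 / √(1 - s ^ 2 * cos x ^ 2)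
    rw [← this]
  have e2 : It s = ∫ x in (0 : ℝ)..π, (1 + (-1) * cos (2 * x)) / 2 / √(1 - s ^ 2 * cos x ^ 2) := by
    unfold It DD
    refine intervalIntegral.integral_congr fun x _ => ?_
    have : sin x ^ 2 = (1 + (-1) * cos (2 * x)) / 2 := by
      rw [cos_two_mul, sin_sq]
      ring
    show sin x ^ 2 / √(1 - s ^ 2 * cos x ^ 2) = (1 + (-1) * cos (2 * x)) / 2 / √(1 - s ^ 2 * cos x ^ 2)
    rw [← this]
  rw [e1, e2]
  refine ⟨le_trans (le_of_eq ?_) h1, le_trans (le_of_eq ?_) h2⟩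
  · unfold Qr
    ring
  · unfold Qt
    ring

end Pool.Agent.N878.CAP_LOW
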