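import Mathlib
import Pool.Agent.N964.GX.Stm
import Pool.Agent.N99.MXD
import Pool.Agent.N816.MXE
import Pool.Agent.N964.MX.F

/-!
# GX/A4 (helper878 for helper964): the pointwise bound
-/

set_option autoImplicit false
set_option linter.all false

namespace Pool.Agent.N878.GXPT

open MeasureTheory
open Pool.Agent.N964.MX (Dd kk ww Pl cc)
open Pool.Agent.N964.GX
open Pool.Agent.Y23 (Lg)
open Pool.Agent.W354 (LogC)
open Y767.WH (GoodH)
open Pool.Agent.N816.MXE (cosh_pos log_cosh neg_log Dd_nonneg)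

lemma mem_pos {δ b s : ℝ} (hδ : 0 < δ) (hb : δ ≤ b) (hs : s ∈ Set.uIcc δ b) : 0 < s := by
  rw [Set.uIcc_of_le hb] at hs
  linarith [hs.1]

lemma cothc {l δ b : ℝ} (hl : 0 < l) (hδ : 0 < δ) (hb : δ ≤ b) :
    ContinuousOn (fun s => Real.sinh (l * s) / (Real.cosh (l * s) - 1)) (Set.uIcc δ b) :=
  ContinuousOn.div (Continuous.continuousOn (by fun_prop)) (Continuous.continuousOn (by fun_prop))
    fun s hs => (cosh_pos (mul_pos hl (mem_pos hδ hb hs))).ne'

lemma int_B {l δ b : ℝ} (hl : 0 < l) (hδ : 0 < δ) (hb : δ ≤ b) :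
    ∫ s in δ..b, Real.sinh (l * s) / (Real.cosh (l * s) - 1) =
      1 / l * (Real.log (Real.cosh (l * b) - 1) - Real.log (Real.cosh (l * δ) - 1)) := by
  have hpos : ∀ s ∈ Set.uIcc δ b, 0 < Real.cosh (l * s) - 1 := fun s hs =>
    cosh_pos (mul_pos hl (mem_pos hδ hb hs))
  have hd : ∀ s ∈ Set.uIcc δ b, HasDerivAt (fun s => 1 / l * Real.log (Real.cosh (l * s) - 1))
      (Real.sinh (l * s) / (Real.cosh (l * s) - 1)) s := by
    intro s hs
    have h0 : HasDerivAt (fun s : ℝ => l * s) l s := by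
      simpa using (hasDerivAt_id s).const_mul l
    have h1 : HasDerivAt (fun s : ℝ => Real.cosh (l * s) - 1) (Real.sinh (l * s) * l) s :=
      (h0.cosh).sub_const 1
    have h2 := (h1.log (hpos s hs).ne').const_mul (1 / l : ℝ)
    exact h2.congr_deriv (by field_simp)
  rw [intervalIntegral.integral_eq_sub_of_hasDerivAt hd (cothc hl hδ hb).intervalIntegrable]
  ring

lemma B_le {l δ b : ℝ} (hl : 0 < l) (hδ : 0 < δ) (hb : δ ≤ b) :
    1 / l * (Real.log (Real.cosh (l * b) - 1) - Real.log (Real.cosh (l * δ) - 1)) ≤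
      (b - δ) + 2 / l * Dd l δ := by
  have hb0 : 0 < b := hδ.trans_le hb
  rw [log_cosh (by positivity), log_cosh (by positivity)]
  have h1 : Real.log (1 - Real.exp (-(l * b))) ≤ 0 := by
    have h0 : 0 < l * b := by positivity
    apply Real.log_nonpos
    · have : Real.exp (-(l * b)) < 1 := Real.exp_lt_one_iff.2 (by linarith)
      linarith
    · have := Real.exp_pos (-(l * b))
      linarith
  have h2 := neg_log (x := l * δ) (by positivity)
  have h3 : l * b + 2 * Real.log (1 - Real.exp (-(l * b))) - Real.log 2 -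
      (l * δ + 2 * Real.log (1 - Real.exp (-(l * δ))) - Real.log 2) ≤
      l * (b - δ) + 2 * Real.log (1 + 1 / (l * δ)) := by linarith
  have h4 := mul_le_mul_of_nonneg_left h3 (by positivity : 0 ≤ 1 / l)
  refine h4.trans (le_of_eq ?_)
  unfold Dd
  field_simp

/-- the real coefficients of `PSa` -/
noncomputable def cf (a : ℕ → ℂ) (t : ℝ) (n : ℕ) : ℝ :=
  (a n * (n : ℂ) ^ (-(t : ℂ) * Complex.I)).re / Real.sqrt n

lemma PSa_eq (a : ℕ → ℂ) (l t : ℝ) (w : ℝ → ℝ) :
    PSa a l t w = ∑ n ∈ Finset.Icc 1 ⌊Real.exp l⌋₊, w (Real.log n) * cf a t n := by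
  unfold PSa
  rw [Complex.re_sum]
  refine Finset.sum_congr rfl fun n _ => ?_
  rw [mul_assoc, Complex.re_ofReal_mul]
  unfold cf
  ring

lemma cf_abs {k : ℕ} {a : ℕ → ℂ} (ram : ∀ n : ℕ, ‖a n‖ ≤ k * ArithmeticFunction.vonMangoldt n)
    (t : ℝ) {n : ℕ} (hn : 1 ≤ n) :
    |cf a t n| ≤ k * (ArithmeticFunction.vonMangoldt n / Real.sqrt n) := by
  unfold cf
  rw [abs_div, abs_of_nonneg (Real.sqrt_nonneg _), ← mul_div_assoc]
  refine div_le_div_of_nonneg_right ?_ (Real.sqrt_nonneg _)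
  refine (Complex.abs_re_le_norm _).trans ?_
  rw [norm_mul, Pool.Agent.N964.MX.norm_ppow (by omega), mul_one]
  exact ram n

lemma kk_cont {l δ b : ℝ} (hl : 0 < l) (hδ : 0 < δ) (hb : δ ≤ b) (u : ℝ) :
    ContinuousOn (fun s => kk l s u) (Set.uIcc δ b) := by
  unfold kk
  exact ContinuousOn.div (Continuous.continuousOn (by fun_prop))
    (Continuous.continuousOn (by fun_prop))
    fun s hs => (cosh_pos (mul_pos hl (mem_pos hδ hb hs))).ne'

lemma PS_cont {l δ b : ℝ} (a : ℕ → ℂ) (t : ℝ) (hl : 0 < l) (hδ : 0 < δ) (hb : δ ≤ b) :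
    ContinuousOn (fun s => PSa a l t (kk l s)) (Set.uIcc δ b) := by
  simp only [PSa_eq]
  refine continuousOn_finsetSum _ fun n _ => ?_
  exact (kk_cont hl hδ hb _).mul continuousOn_const

lemma int_PS {l δ : ℝ} (a : ℕ → ℂ) (t : ℝ) (hl : 0 < l) (hδ : 0 < δ) (hδ2 : δ ≤ 2) :
    ∫ s in δ..2, PSa a l t (kk l s) = PSa a l t (ww l δ) := by
  simp only [PSa_eq]
  rw [intervalIntegral.integral_finsetSum]
  · refine Finset.sum_congr rfl fun n _ => ?_
    rw [intervalIntegral.integral_mul_const]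
    rfl
  · intro n _
    exact ((kk_cont hl hδ hδ2 _).mul continuousOn_const).intervalIntegrable

/-- the weight for `s ≥ 1` -/
lemma kk_le {l s u : ℝ} (hl : 1 ≤ l) (hs : 1 ≤ s) (hu : 0 ≤ u) (hul : u ≤ l) :
    0 ≤ kk l s u ∧ kk l s u ≤ 3 * Real.exp (-(s * u)) := by
  have hls : 1 ≤ l * s := by nlinarith
  have hpos := cosh_pos (x := l * s) (by linarith)
  unfold kk
  have h0 : 0 ≤ s * (l - u) := mul_nonneg (by linarith) (by linarith)
  refine ⟨div_nonneg (Real.sinh_nonneg_iff.2 h0) hpos.le, ?_⟩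
  rw [div_le_iff₀ hpos]
  have h2 : Real.exp (l * s) * Real.exp (-(l * s)) = 1 := by rw [← Real.exp_add]; simp
  have h1 : Real.cosh (l * s) - 1 = Real.exp (l * s) * (1 - Real.exp (-(l * s))) ^ 2 / 2 := by
    rw [Real.cosh_eq]
    linear_combination (1 - Real.exp (-(l * s)) / 2) * h2
  have h3 : Real.sinh (s * (l - u)) ≤ Real.exp (l * s) * Real.exp (-(s * u)) / 2 := by
    rw [Real.sinh_eq, ← Real.exp_add, show l * s + -(s * u) = s * (l - u) by ring]
    have := Real.exp_pos (-(s * (l - u)))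
    linarith
  have h4 : Real.exp (-(l * s)) ≤ 2 / 5 := by
    have h5 : Real.exp (-(l * s)) ≤ Real.exp (-1) := Real.exp_le_exp.2 (by linarith)
    have h6 : Real.exp (-1) ≤ 2 / 5 := by
      rw [Real.exp_neg, inv_le_comm₀ (Real.exp_pos _) (by norm_num)]
      have := Real.exp_one_gt_d9
      norm_num
      linarith
    exact h5.trans h6
  have h5 : 1 / 3 ≤ (1 - Real.exp (-(l * s))) ^ 2 := by nlinarith [Real.exp_pos (-(l * s))]
  rw [h1]
  have h6 : 0 < Real.exp (l * s) * Real.exp (-(s * u)) := by positivity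
  nlinarith

lemma summ : Summable (fun n : ℕ => ArithmeticFunction.vonMangoldt n * (n : ℝ) ^ (-(3 / 2) : ℝ)) := by
  have h := (ArithmeticFunction.LSeriesSummable_vonMangoldt (s := (3 / 2 : ℝ))
    (by rw [Complex.ofReal_re]; norm_num)).norm
  refine h.congr fun n => ?_
  rw [LSeries.norm_term_eq]
  split_ifs with h0
  · simp [h0]
  · rw [Complex.ofReal_re, Complex.norm_real, Real.norm_of_nonneg
      ArithmeticFunction.vonMangoldt_nonneg, Real.rpow_neg (Nat.cast_nonneg n), div_eq_mul_inv]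

/-- the sum over the prime powers for `s ≥ 1` -/
lemma PS_le {k : ℕ} {a : ℕ → ℂ} (ram : ∀ n : ℕ, ‖a n‖ ≤ k * ArithmeticFunction.vonMangoldt n)
    {l s : ℝ} (t : ℝ) (hl : 1 ≤ l) (hs : 1 ≤ s) :
    |PSa a l t (kk l s)| ≤
      3 * k * ∑' n : ℕ, ArithmeticFunction.vonMangoldt n * (n : ℝ) ^ (-(3 / 2) : ℝ) := by
  rw [PSa_eq]
  refine (Finset.abs_sum_le_sum_abs _ _).trans ?_
  have h1 : ∀ n ∈ Finset.Icc 1 ⌊Real.exp l⌋₊, |kk l s (Real.log n) * cf a t n| ≤
      3 * k * (ArithmeticFunction.vonMangoldt n * (n : ℝ) ^ (-(3 / 2) : ℝ)) := by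
    intro n hn
    rw [Finset.mem_Icc] at hn
    have hn0 : (0 : ℝ) < n := by exact_mod_cast hn.1
    have hn1 : (1 : ℝ) ≤ n := by exact_mod_cast hn.1
    obtain ⟨h2, h3⟩ := kk_le hl hs (Real.log_nonneg hn1) (Pool.Agent.N964.MX.log_mem hn.1 hn.2)
    rw [abs_mul, abs_of_nonneg h2]
    have h4 := cf_abs ram t hn.1
    have h5 : Real.exp (-(s * Real.log n)) ≤ (n : ℝ)⁻¹ := by
      have : Real.exp (-(s * Real.log n)) ≤ Real.exp (-Real.log n) :=
        Real.exp_le_exp.2 (by nlinarith [Real.log_nonneg hn1])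
      rwa [Real.exp_neg, Real.exp_neg, Real.exp_log hn0, ← Real.exp_neg] at this
    have hL : 0 ≤ ArithmeticFunction.vonMangoldt n / Real.sqrt n :=
      div_nonneg ArithmeticFunction.vonMangoldt_nonneg (Real.sqrt_nonneg _)
    have h6 : (n : ℝ) ^ (-(3 / 2) : ℝ) = (n : ℝ)⁻¹ / Real.sqrt n := by
      rw [Real.sqrt_eq_rpow, ← Real.rpow_neg_one, ← Real.rpow_sub hn0]
      norm_num
    calc kk l s (Real.log n) * |cf a t n| ≤ (3 * (n : ℝ)⁻¹) *
          (k * (ArithmeticFunction.vonMangoldt n / Real.sqrt n)) :=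
          mul_le_mul (h3.trans (by linarith)) h4 (abs_nonneg _) (by positivity)
      _ = _ := by rw [h6]; ring
  refine (Finset.sum_le_sum h1).trans ?_
  rw [← Finset.mul_sum]
  refine mul_le_mul_of_nonneg_left ?_ (by positivity)
  exact summ.sum_le_tsum _ fun n _ => mul_nonneg ArithmeticFunction.vonMangoldt_nonneg
    (by positivity)

lemma hd_log {f : ℝ → ℂ} {f' : ℂ} {s : ℝ} (hf : HasDerivAt f f' s) (h0 : f s ≠ 0) :
    HasDerivAt (fun s => Real.log ‖f s‖) ((f' / f s).re) s := by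
  have h1 : HasDerivAt (fun s => ‖f s‖ ^ 2) (2 * inner ℝ (f s) f') s := hf.norm_sq
  have h2 : ‖f s‖ ^ 2 ≠ 0 := pow_ne_zero _ (norm_ne_zero_iff.2 h0)
  have h3 := (h1.log h2).const_mul (1 / 2 : ℝ)
  have h4 : (fun s => 1 / 2 * Real.log (‖f s‖ ^ 2)) = fun s => Real.log ‖f s‖ := by
    funext s
    rw [Real.log_pow]
    push_cast
    ring
  rw [h4] at h3
  refine h3.congr_deriv ?_
  rw [Complex.div_re, Complex.inner, ← Complex.normSq_eq_norm_sq]
  simp only [Complex.mul_re, Complex.conj_re, Complex.conj_im]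
  field_simp
  ring

section

variable {k : ℕ} {A : ℝ} {lc : ℝ → ℝ} {F : ℂ → ℂ} {a : ℕ → ℂ}

/-- the logarithmic derivative on the vertical line through `1/2 + s` -/
noncomputable def gd (F : ℂ → ℂ) (t s : ℝ) : ℝ :=
  (deriv F (1 / 2 + s + t * Complex.I) / F (1 / 2 + s + t * Complex.I)).re

lemma pt_im (t s : ℝ) : ((1 / 2 : ℂ) + s + t * Complex.I).im = t := by simp

lemma pt_re (t s : ℝ) : ((1 / 2 : ℂ) + s + t * Complex.I).re = 1 / 2 + s := by
  simp

lemma Fne (h : LR k A lc F a) {t s : ℝ} (ht : 1 ≤ t) (hs : 0 < s) :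
    F (1 / 2 + s + t * Complex.I) ≠ 0 :=
  h.rh _ (by rw [pt_re]; linarith) (by rw [pt_im]; exact ht)

lemma Fan (h : LR k A lc F a) {t s : ℝ} (ht : 1 ≤ t) :
    AnalyticAt ℂ F (1 / 2 + s + t * Complex.I) :=
  h.good.an _ (by rw [pt_im]; linarith)

lemma line_hd (t s : ℝ) :
    HasDerivAt (fun s : ℝ => (1 / 2 : ℂ) + s + t * Complex.I) 1 s := by
  have h1 : HasDerivAt (fun s : ℝ => ((s : ℝ) : ℂ)) 1 s := Complex.ofRealCLM.hasDerivAt
  exact (h1.const_add (1 / 2 : ℂ)).add_const _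

lemma log_hd (h : LR k A lc F a) {t s : ℝ} (ht : 1 ≤ t) (hs : 0 < s) :
    HasDerivAt (fun s : ℝ => Real.log ‖F (1 / 2 + s + t * Complex.I)‖) (gd F t s) s := by
  have h1 : HasDerivAt (fun s : ℝ => F (1 / 2 + s + t * Complex.I))
      (deriv F (1 / 2 + s + t * Complex.I) * 1) s :=
    (Fan h ht).differentiableAt.hasDerivAt.comp s (line_hd t s)
  rw [mul_one] at h1
  exact hd_log h1 (Fne h ht hs)

lemma gd_cont (h : LR k A lc F a) {t δ b : ℝ} (ht : 1 ≤ t) (hδ : 0 < δ) (hb : δ ≤ b) :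
    ContinuousOn (gd F t) (Set.uIcc δ b) := by
  intro s hs
  have hs0 := mem_pos hδ hb hs
  have h1 : ContinuousAt (fun s : ℝ => (1 / 2 : ℂ) + s + t * Complex.I) s :=
    (line_hd t s).continuousAt
  have h2 : ContinuousAt (fun s : ℝ => deriv F (1 / 2 + s + t * Complex.I) /
      F (1 / 2 + s + t * Complex.I)) s :=
    ContinuousAt.div
      (ContinuousAt.comp (g := deriv F) (f := fun s : ℝ => (1 / 2 : ℂ) + s + t * Complex.I)
        (x := s) (Fan h ht).deriv.continuousAt h1)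
      (ContinuousAt.comp (g := F) (f := fun s : ℝ => (1 / 2 : ℂ) + s + t * Complex.I)
        (x := s) (Fan h ht).continuousAt h1)
      (Fne h ht hs0)
  exact (Complex.continuous_re.continuousAt.comp h2).continuousWithinAt

/-- the logarithmic derivative for `s ≥ 1` -/
lemma gd_le (h : LR k A lc F a) {t s : ℝ} (ht : 1 ≤ t) (hs : 1 ≤ s) :
    |gd F t s| ≤ k * ∑' n : ℕ, ArithmeticFunction.vonMangoldt n * (n : ℝ) ^ (-(3 / 2) : ℝ) := by
  unfold gd
  refine (Complex.abs_re_le_norm _).trans ?_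
  rw [h.good.ld _ (by rw [pt_re]; linarith) (by rw [pt_im]; exact ht), norm_neg, ← tsum_mul_left]
  refine tsum_of_norm_bounded (summ.mul_left (k : ℝ)).hasSum fun n => ?_
  rcases Nat.eq_zero_or_pos n with h0 | h0
  · subst h0
    rw [h.good.ha1 0 (by norm_num), zero_mul, norm_zero]
    simp
  · have hn0 : (0 : ℝ) < n := by exact_mod_cast h0
    have hn1 : (1 : ℝ) ≤ n := by exact_mod_cast h0
    rw [norm_mul, Complex.norm_natCast_cpow_of_pos h0, Complex.neg_re, pt_re]
    have h2 : (n : ℝ) ^ (-(1 / 2 + s)) ≤ (n : ℝ) ^ (-(3 / 2) : ℝ) :=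
      Real.rpow_le_rpow_of_exponent_le hn1 (by linarith)
    rw [← mul_assoc]
    exact mul_le_mul (h.ram n) h2 (by positivity)
      (mul_nonneg (Nat.cast_nonneg _) ArithmeticFunction.vonMangoldt_nonneg)

end

theorem pt_of (h1 : S_ct) (h2 : S_arch) (h3 : S_prim) : S_pt := by
  intro k A lc F a h
  obtain ⟨C1, hC1, H1⟩ := h1 k A lc F a h
  obtain ⟨C2, hC2, H2⟩ := h2 k A lc h.hlc (by linarith [h.hA])
  obtain ⟨C3, hC3, H3⟩ := h3 k A lc F a h
  obtain ⟨C4, hC4, H4⟩ := Pool.Agent.N99.MXD.coef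
  set S0 : ℝ := ∑' n : ℕ, ArithmeticFunction.vonMangoldt n * (n : ℝ) ^ (-(3 / 2) : ℝ) with hS0
  have hS0n : 0 ≤ S0 := tsum_nonneg fun n => mul_nonneg ArithmeticFunction.vonMangoldt_nonneg
    (by positivity)
  have hA1 := h.hA
  have hA0 : 0 < A := by linarith
  have hlA : 0 ≤ Real.log A := Real.log_nonneg hA1
  set C : ℝ := C1 + C2 + C3 + k * C4 + Real.log A + 4 * (k * S0) + 1 with hC
  have hkC4 : 0 ≤ k * C4 := by positivity
  have hkS : 0 ≤ (k : ℝ) * S0 := by positivity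
  refine ⟨max C 4, le_max_of_le_right (by norm_num), fun t δ l ht hδ hδ1 hl hlt => ?_⟩
  have ht4 : 4 ≤ t := (le_max_right _ _).trans ht
  have htC : C1 ≤ t := by
    have : C ≤ t := (le_max_left _ _).trans ht
    linarith
  have ht1 : 1 ≤ t := by linarith
  have hl0 : 0 < l := by linarith
  have hD := Dd_nonneg hl0 hδ
  have hll : 0 ≤ Real.log l := Real.log_nonneg hl
  -- the inequality for `s ≤ 1`
  have key : ∀ s : ℝ, 0 < s → s ≤ 1 → gd F t s ≤
      (k * Lg t + C2) / 2 * (Real.sinh (l * s) / (Real.cosh (l * s) - 1)) -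
        (k * Lg t + C2) / 2 + (C1 + C3) / (2 * l ^ 2) * (1 / s) - PSa a l t (kk l s) := by
    intro s hs0 hs1
    obtain ⟨V1, V2, hV1, hV2, e1⟩ := H1 t s l htC hs0 hs1 hl hlt
    have e2 := H2 t s l V1 V2 ht4 hs0 hs1 hl hV1 hV2
    have e3 := H3 t s l V1 V2 ht4 hs0 hs1 hl hlt hV1 hV2
    rw [abs_le] at e3
    have e4 : (C1 + C3) / (2 * l ^ 2) * (1 / s) =
        (1 / 2) * (C1 / (l ^ 2 * s) + C3 / (l ^ 2 * s)) := by field_simp
    rw [e4]
    have e5 : gd F t s =
      (deriv F (1 / 2 + s + t * Complex.I) / F (1 / 2 + s + t * Complex.I)).re := rfl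
    rw [← e5] at e1
    nlinarith [e3.1, e3.2]
  -- integration
  have hδb : δ ≤ 3 / 2 := by linarith
  have iG1 : IntervalIntegrable (gd F t) volume δ 1 := (gd_cont h ht1 hδ hδ1).intervalIntegrable
  have iG2 : IntervalIntegrable (gd F t) volume 1 (3 / 2) :=
    (gd_cont h ht1 one_pos (by norm_num)).intervalIntegrable
  have eF : Real.log ‖F (1 / 2 + ((3 / 2 : ℝ) : ℂ) + t * Complex.I)‖ -
      Real.log ‖F (1 / 2 + δ + t * Complex.I)‖ =
      (∫ s in δ..1, gd F t s) + ∫ s in (1 : ℝ)..(3 / 2), gd F t s := by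
    rw [intervalIntegral.integral_add_adjacent_intervals iG1 iG2]
    exact (intervalIntegral.integral_eq_sub_of_hasDerivAt
      (fun s hs => log_hd h ht1 (mem_pos hδ hδb hs))
      ((gd_cont h ht1 hδ hδb).intervalIntegrable)).symm
  have eL : -Real.log A ≤ Real.log ‖F (1 / 2 + ((3 / 2 : ℝ) : ℂ) + t * Complex.I)‖ := by
    have e1 := h.good.lower t ht1
    have e2 : (⟨2, t⟩ : ℂ) = 1 / 2 + ((3 / 2 : ℝ) : ℂ) + t * Complex.I := by
      apply Complex.ext
      · rw [pt_re]; norm_num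
      · rw [pt_im]
    rw [e2] at e1
    rw [← Real.log_inv]
    exact Real.log_le_log (by positivity) e1
  have eG2 : ∫ s in (1 : ℝ)..(3 / 2), gd F t s ≤ (3 / 2 - 1) * (k * S0) := by
    have e1 := intervalIntegral.integral_mono_on (a := (1 : ℝ)) (b := 3 / 2) (by norm_num) iG2
      (intervalIntegrable_const (c := k * S0)) fun s hs =>
        (le_abs_self _).trans (gd_le h ht1 hs.1)
    rw [intervalIntegral.integral_const, smul_eq_mul] at e1
    exact e1
  have cP := PS_cont a t hl0 hδ (by linarith : δ ≤ 2)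
  have iP1 : IntervalIntegrable (fun s => PSa a l t (kk l s)) volume δ 1 :=
    (PS_cont a t hl0 hδ hδ1).intervalIntegrable
  have iP2 : IntervalIntegrable (fun s => PSa a l t (kk l s)) volume 1 2 :=
    (PS_cont a t hl0 one_pos (by norm_num)).intervalIntegrable
  have eP : PSa a l t (ww l δ) = (∫ s in δ..1, PSa a l t (kk l s)) +
      ∫ s in (1 : ℝ)..2, PSa a l t (kk l s) := by
    rw [intervalIntegral.integral_add_adjacent_intervals iP1 iP2, int_PS a t hl0 hδ (by linarith)]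
  have eP2 : ∫ s in (1 : ℝ)..2, PSa a l t (kk l s) ≤ (2 - 1) * (3 * k * S0) := by
    have e1 := intervalIntegral.integral_mono_on (a := (1 : ℝ)) (b := 2) (by norm_num) iP2
      (intervalIntegrable_const (c := 3 * k * S0)) fun s hs =>
        (le_abs_self _).trans (PS_le h.ram t hl hs.1)
    rw [intervalIntegral.integral_const, smul_eq_mul] at e1
    exact e1
  have i1 : IntervalIntegrable (fun s => (k * Lg t + C2) / 2 *
      (Real.sinh (l * s) / (Real.cosh (l * s) - 1))) volume δ 1 :=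
    (continuousOn_const.mul (cothc hl0 hδ hδ1)).intervalIntegrable
  have i2 : IntervalIntegrable (fun _ : ℝ => (k * Lg t + C2) / 2) volume δ 1 :=
    continuousOn_const.intervalIntegrable
  have i3 : IntervalIntegrable (fun s : ℝ => (C1 + C3) / (2 * l ^ 2) * (1 / s)) volume δ 1 :=
    (continuousOn_const.mul (continuousOn_const.div continuousOn_id
      fun s hs => (mem_pos hδ hδ1 hs).ne')).intervalIntegrable
  have eG1 : ∫ s in δ..1, gd F t s ≤ (k * Lg t + C2) / 2 * (1 / l *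
      (Real.log (Real.cosh (l * 1) - 1) - Real.log (Real.cosh (l * δ) - 1))) -
      (1 - δ) * ((k * Lg t + C2) / 2) + (C1 + C3) / (2 * l ^ 2) * Real.log (1 / δ) -
      ∫ s in δ..1, PSa a l t (kk l s) := by
    have e1 := intervalIntegral.integral_mono_on hδ1 iG1 (((i1.sub i2).add i3).sub iP1)
      fun s hs => key s (by linarith [hs.1]) hs.2
    refine e1.trans (le_of_eq ?_)
    rw [intervalIntegral.integral_sub ((i1.sub i2).add i3) iP1,
      intervalIntegral.integral_add (i1.sub i2) i3, intervalIntegral.integral_sub i1 i2,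
      intervalIntegral.integral_const_mul, intervalIntegral.integral_const_mul, int_B hl0 hδ hδ1,
      intervalIntegral.integral_const, integral_one_div_of_pos hδ (by norm_num), smul_eq_mul]
  have hLg : 1 ≤ Lg t := Pool.Agent.Y23.one_le_Lg t
  have hkL : 0 ≤ (k : ℝ) * Lg t := by positivity
  have h5 := mul_le_mul_of_nonneg_left (B_le hl0 hδ hδ1)
    (by positivity : 0 ≤ (k * Lg t + C2) / 2)
  -- the logarithm
  have h6 : Real.log (1 / δ) ≤ l + Dd l δ := by
    have h7 : Real.log (1 / δ) = Real.log l + Real.log (1 / (l * δ)) := by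
      rw [← Real.log_mul hl0.ne' (by positivity)]
      congr 1
      field_simp
    have h8 : Real.log (1 / (l * δ)) ≤ Dd l δ := by
      unfold Dd
      exact Real.log_le_log (by positivity) (by linarith)
    have h10 : Real.log l ≤ l := (Real.log_le_sub_one_of_pos hl0).trans (by linarith)
    rw [h7]; linarith
  have h7 : (C1 + C3) / (2 * l ^ 2) * Real.log (1 / δ) ≤ (C1 + C3) * (1 + Dd l δ) := by
    have hC13 : 0 ≤ C1 + C3 := by linarith
    have h8 : (C1 + C3) / (2 * l ^ 2) * Real.log (1 / δ) ≤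
        (C1 + C3) / (2 * l ^ 2) * (l + Dd l δ) :=
      mul_le_mul_of_nonneg_left h6 (by positivity)
    refine h8.trans ?_
    rw [div_mul_eq_mul_div, div_le_iff₀ (by positivity)]
    have h9 : 1 ≤ l ^ 2 := one_le_pow₀ hl
    have h10 : l ≤ l ^ 2 := by nlinarith
    have h11 : l + Dd l δ ≤ (1 + Dd l δ) * (2 * l ^ 2) := by nlinarith
    calc (C1 + C3) * (l + Dd l δ) ≤ (C1 + C3) * ((1 + Dd l δ) * (2 * l ^ 2)) :=
          mul_le_mul_of_nonneg_left h11 hC13
      _ = (C1 + C3) * (1 + Dd l δ) * (2 * l ^ 2) := by ring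
  have h8 : (k * Lg t + C2) / 2 * ((1 - δ) + 2 / l * Dd l δ) ≤
      (1 - δ) * ((k * Lg t + C2) / 2) + k * Lg t / l * Dd l δ + C2 * Dd l δ := by
    have h9 : C2 / l * Dd l δ ≤ C2 * Dd l δ := by
      apply mul_le_mul_of_nonneg_right _ hD
      exact div_le_self hC2.le hl
    have h11 : (k * Lg t + C2) / 2 * ((1 - δ) + 2 / l * Dd l δ) =
        (1 - δ) * ((k * Lg t + C2) / 2) + k * Lg t / l * Dd l δ + C2 / l * Dd l δ := by
      field_simp
      ring
    rw [h11]; linarith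
  -- the prime powers
  obtain ⟨a1, -, -, a4⟩ := H4 l δ hl hδ hδ1
  have hprim : |PSa a l t (ww l δ)| ≤ ‖PA a l δ t‖ + k * (C4 * (1 + Real.log l + Dd l δ)) := by
    rw [PSa_eq, ← Finset.sum_filter_add_sum_filter_not (Finset.Icc 1 ⌊Real.exp l⌋₊) Nat.Prime]
    refine (abs_add_le _ _).trans (add_le_add ?_ ?_)
    · rw [← Pool.Agent.N964.MX.Pl_eq]
      have e : ∑ n ∈ Pl l, ww l δ (Real.log n) * cf a t n = (PA a l δ t).re := by
        unfold PA
        rw [Complex.re_sum]
        refine Finset.sum_congr rfl fun p hp => ?_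
        rw [Pool.Agent.N964.MX.mem_Pl] at hp
        have hp1 : (1 : ℝ) < p := by exact_mod_cast hp.2.one_lt
        have hlp : Real.log p ≠ 0 := (Real.log_pos hp1).ne'
        have e1 : ((cc l δ p : ℝ) : ℂ) * al a p * (p : ℂ) ^ (-(t : ℂ) * Complex.I) =
            ((cc l δ p / Real.log p : ℝ) : ℂ) * (a p * (p : ℂ) ^ (-(t : ℂ) * Complex.I)) := by
          unfold al
          push_cast
          ring
        rw [e1, Complex.re_ofReal_mul]
        unfold cc cf
        field_simp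
      rw [e]
      exact Complex.abs_re_le_norm _
    · refine le_trans ?_ (mul_le_mul_of_nonneg_left a4 (Nat.cast_nonneg k))
      rw [Finset.mul_sum]
      refine (Finset.abs_sum_le_sum_abs _ _).trans (Finset.sum_le_sum fun n hn => ?_)
      rw [Finset.mem_filter, Finset.mem_Icc] at hn
      have h12 := cf_abs h.ram t hn.1.1
      rcases eq_or_lt_of_le hn.1.1 with h13 | h13
      · rw [← h13] at h12 ⊢
        simp at h12
        rw [h12]
        simp
      · have hn2 : (1 : ℝ) < n := by exact_mod_cast h13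
        have h14 := (a1 (Real.log n) (Real.log_pos hn2)
          (Pool.Agent.N964.MX.log_mem hn.1.1 hn.1.2)).1
        rw [abs_mul, abs_of_nonneg h14]
        calc ww l δ (Real.log n) * |cf a t n| ≤ ww l δ (Real.log n) *
              (k * (ArithmeticFunction.vonMangoldt n / Real.sqrt n)) :=
              mul_le_mul_of_nonneg_left h12 h14
          _ = _ := by ring
  have h9 := neg_le_abs (PSa a l t (ww l δ))
  have hFp : 0 < ‖F (1 / 2 + δ + t * Complex.I)‖ := norm_pos_iff.2 (Fne h ht1 hδ)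
  have hlog : -Real.log ‖F (1 / 2 + δ + t * Complex.I)‖ ≤
      k * Lg t / l * Dd l δ + max C 4 * (1 + Real.log l + Dd l δ) + ‖PA a l δ t‖ := by
    have h15 : C * (1 + Real.log l + Dd l δ) ≤ max C 4 * (1 + Real.log l + Dd l δ) :=
      mul_le_mul_of_nonneg_right (le_max_left _ _) (by positivity)
    have h16 : 0 ≤ (C1 + C2 + C3 + Real.log A + 4 * (k * S0) + 1) * Real.log l := by positivity
    have h17 : 0 ≤ (Real.log A + 4 * (k * S0) + 1) * Dd l δ := by positivity
    have h18 : C * (1 + Real.log l + Dd l δ) = k * (C4 * (1 + Real.log l + Dd l δ)) +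
        (C1 + C3) * (1 + Dd l δ) + C2 * Dd l δ + C2 + Real.log A + 4 * (k * S0) + 1 +
        (C1 + C2 + C3 + Real.log A + 4 * (k * S0) + 1) * Real.log l +
        (Real.log A + 4 * (k * S0) + 1) * Dd l δ := by
      rw [hC]; ring
    linarith
  rw [← Real.log_inv] at hlog
  have h19 := Real.exp_le_exp.2 hlog
  rwa [Real.exp_log (inv_pos.2 hFp)] at h19

end Pool.Agent.N878.GXPT

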